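import Pool.Agent.Z15.H.Defs

/-!
Chow groups of projective hypersurfaces in terms of function fields.
-/

set_option autoImplicit false

open FF MvPolynomial Pool.Agent.Z15.H

namespace Pool.Agent.Z15.Chow

variable {K M ι : Type} [Field K] [Field M] [Algebra K M]

/-- `ρ` is the reduction map of the discrete valuation `v` of `M` onto its residue field `κ`. -/
structure IsReduction {κ : Type} [Field κ] [Algebra K κ] (v : Place K M) (ρ : M → κ) : Prop where
  add : ∀ x y, v.Reg x → v.Reg y → ρ (x + y) = ρ x + ρ y
  mul : ∀ x y, v.Reg x → v.Reg y → ρ (x * y) = ρ x * ρ y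
  const : ∀ c : K, ρ (algebraMap K M c) = algebraMap K κ c
  zero : ∀ x, v.Reg x → (ρ x = 0 ↔ x = 0 ∨ 0 < v.ord x)
  surj : ∀ z : κ, ∃ x, v.Reg x ∧ ρ x = z

/-- Let `M` be the function field of a variety with a rational map to projective space with
homogeneous coordinates `Q`. Then `c` is the push-forward of the discrete valuation `v`, as a cycle of
dimension `l`: if the residue field of `v` has transcendence degree `l` over `K` then `c` is `cyc K R`,
where `R` is the reduction of `Q` at `v` (after multiplication with an element `a` of `M`), otherwise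
`c = 0`. -/
def IsImage (l : ℕ) (v : Place K M) (Q : ι → M) (c : Set (MvPolynomial ι K) →₀ ℤ) : Prop :=
  ∃ (κ : Type) (_ : Field κ) (_ : Algebra K κ) (ρ : M → κ) (a : M), IsReduction v ρ ∧ a ≠ 0 ∧
    (∀ i, v.Reg (a * Q i)) ∧ (fun i => ρ (a * Q i)) ≠ 0 ∧
    ((Algebra.trdeg K κ = l ∧ c = cyc K (fun i => ρ (a * Q i))) ∨ (Algebra.trdeg K κ ≠ l ∧ c = 0))

/-- `D` is the push-forward of the divisor of the function `h ≠ 0` on the variety of dimension `l + 1`
with the function field `M` under the rational map to projective space with homogeneous coordinates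
`Q` (more precisely, on a normal projective model of the variety on which the map is defined): the
sum of the `v.ord h • C v`, where `C v` is the push-forward of `v`. There are only finitely many discrete
valuations `v` such that `v.ord h` and `C v` are not zero. -/
def IsDivisor (l : ℕ) (Q : ι → M) (h : M) (D : Set (MvPolynomial ι K) →₀ ℤ) : Prop :=
  ∃ (T : Finset (Place K M)) (C : Place K M → Set (MvPolynomial ι K) →₀ ℤ),
    (∀ v, IsImage l v Q (C v)) ∧ (∀ v, v ∈ T ↔ v.ord h ≠ 0 ∧ C v ≠ 0) ∧ D = ∑ v ∈ T, v.ord h • C v

variable (K)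

/-- The cycles of dimension `l` on the projective hypersurface `F = 0` over `K` which are rationally
equivalent to zero: the group generated by the push-forwards of the divisors of rational functions
`h ≠ 0` on varieties of dimension `l + 1`, with function field `M`, which map to the hypersurface. -/
noncomputable def Rat (l : ℕ) (F : MvPolynomial ι K) : AddSubgroup (Set (MvPolynomial ι K) →₀ ℤ) :=
  AddSubgroup.closure {D | ∃ (M : Type) (_ : Field M) (_ : Algebra K M) (Q : ι → M) (h : M),
    Algebra.EssFiniteType K M ∧ Algebra.trdeg K M = (l + 1 : ℕ) ∧ Q ≠ 0 ∧ aeval Q F = 0 ∧ h ≠ 0 ∧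
      IsDivisor l Q h D}

/-- The group of cycles of dimension `l` on the projective hypersurface `F = 0` over the field `K`: it is
generated by the images of varieties of dimension `l` with function field `E` under the rational
maps with homogeneous coordinates `P` to the hypersurface. -/
noncomputable def Cycles (l : ℕ) (F : MvPolynomial ι K) : AddSubgroup (Set (MvPolynomial ι K) →₀ ℤ) :=
  AddSubgroup.closure {c | ∃ (E : Type) (_ : Field E) (_ : Algebra K E) (P : ι → E),
    Algebra.trdeg K E = l ∧ P ≠ 0 ∧ aeval P F = 0 ∧ c = cyc K P}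

/-- Up to torsion, every cycle of dimension `l` on the projective hypersurface `F = 0` over the field `K`
is rationally equivalent to a multiple of the cycle `c`. -/
def GeneratedBy (l : ℕ) (F : MvPolynomial ι K) (c : Set (MvPolynomial ι K) →₀ ℤ) : Prop :=
  ∀ Z ∈ Cycles K l F, ∃ (N : ℕ) (m : ℤ), 0 < N ∧ N • Z - m • c ∈ Rat K l F

/-- The linear subspace of dimension `l` spanned by the linearly independent vectors `Λ 0, …, Λ l`, as
a cycle, given by its ideal. -/
noncomputable def linear (Λ : ℕ → ι → K) (l : ℕ) : Set (MvPolynomial ι K) →₀ ℤ :=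
  Finsupp.single {G | ∀ n, ∀ a : Fin (l + 1) → K,
    eval (fun i => ∑ j, a j * Λ j i) (homogeneousComponent n G) = 0} 1

end Pool.Agent.Z15.Chow
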