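import Pool.Agent.Z15.J.Final
import Pool.Agent.Z15.J.Chow

/-!
The main theorem with the definitions of `Chow.lean`.
-/

set_option autoImplicit false
set_option linter.all false

open FF MvPolynomial Pool.Agent.Z15.H Pool.Agent.Z15.J Pool.Agent.Z15.J.Stm

namespace Pool.Agent.Z15.Chow

theorem isReduction_red {K M : Type} [Field K] [Field M] [Algebra K M] (v : Place K M) :
    IsReduction v (v.red : M → v.RF) where
  add := fun x y hx hy => v.red_add hx hy
  mul := fun x y hx hy => v.red_mul hx hy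
  const := fun c => rfl
  zero := fun x hx => v.red_eq_zero_iff hx
  surj := fun z => by
    obtain ⟨x, hx, h⟩ := v.red_surjective z
    exact ⟨x, hx, h⟩

theorem rat_le (K : Type) [Field K] {ι : Type} (l : ℕ) (F : MvPolynomial ι K) :
    Pool.Agent.Z15.J.Rat K l F ≤ Rat K l F := by
  refine (AddSubgroup.closure_le _).2 ?_
  rintro D ⟨M, _, _, Q, h, hM, hQ, hQF, hh, T, R, hR, hT, rfl⟩
  classical
  refine AddSubgroup.subset_closure ⟨M, inferInstance, inferInstance, Q, h, hM.1, hM.2, hQ, hQF, hh,
    T, fun v => if Algebra.trdeg K v.RF = l then cyc K (R v) else 0, fun v => ?_, fun v => ?_, ?_⟩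
  · obtain ⟨h0, c, hc, h1⟩ := hR v
    have h2 : (fun i => v.red (c * Q i)) = R v := funext fun i => (h1 i).2
    refine ⟨v.RF, inferInstance, inferInstance, v.red, c, isReduction_red v, hc, fun i => (h1 i).1,
      by rw [h2]; exact h0, ?_⟩
    by_cases h3 : Algebra.trdeg K v.RF = l
    · left
      refine ⟨h3, ?_⟩
      rw [h2]
      exact if_pos h3
    · right
      exact ⟨h3, if_neg h3⟩
  · rw [hT]
    constructor
    · rintro ⟨h1, h2, h3⟩
      exact ⟨h2, by simp only [if_pos h1]; exact h3⟩
    · rintro ⟨h1, h2⟩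
      by_cases h3 : Algebra.trdeg K v.RF = l
      · simp only [if_pos h3] at h2
        exact ⟨h3, h1, h2⟩
      · simp only [if_neg h3] at h2
        exact absurd rfl h2
  · refine Finset.sum_congr rfl fun v hv => ?_
    simp only [if_pos ((hT v).1 hv).1]

theorem of_RR {k : Type} [Field k] {ι : Type} {F : MvPolynomial ι k} {s : ℕ} {fl : ℕ → ι → k}
    (h : RR k F s fl) (K : Type) [Field K] [Algebra k K] (l : ℕ) (hl : l ≤ s) :
    GeneratedBy K l (map (algebraMap k K) F) (linear K (fun i j => algebraMap k K (fl i j)) l) := by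
  intro Z hZ
  have h1 : Z ∈ Sat K l (map (algebraMap k K) F) (lin K (fun i j => algebraMap k K (fl i j)) l) := by
    refine (AddSubgroup.closure_le _).2 ?_ hZ
    rintro c ⟨E, _, _, P, h1, h2, h3, rfl⟩
    exact h K l hl E P h1 h2 h3
  obtain ⟨N, hN, m, h2⟩ := h1
  exact ⟨N, m, hN, rat_le K l _ h2⟩

end Pool.Agent.Z15.Chow
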