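import Pool.Agent.Z15.J.SA1

/-!
The induction step: cones with a constant vertex.
-/

set_option autoImplicit false
set_option linter.all false

open FF MvPolynomial Pool.Agent.Z15.H Pool.Agent.Z15.J.Stm

namespace Pool.Agent.Z15.J

theorem hom_mul {k ι : Type} [Field k] {R : Type} [CommRing R] [Algebra k R] {F : MvPolynomial ι k}
    {d : ℕ} (hF : F.IsHomogeneous d) (c : R) (v : ι → R) :
    aeval (fun i => c * v i) F = c ^ d * aeval v F := by
  rw [aeval_def, aeval_def, eval₂_eq, eval₂_eq, Finset.mul_sum]
  refine Finset.sum_congr rfl fun m hm => ?_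
  have h1 : m.degree = d := by
    rw [← hF (mem_support_iff.1 hm), Finsupp.degree_eq_weight_one]
    rfl
  have h2 : ∏ i ∈ m.support, (c * v i) ^ m i = c ^ d * ∏ i ∈ m.support, v i ^ m i := by
    simp only [mul_pow]
    rw [Finset.prod_mul_distrib, Finset.prod_pow_eq_pow_sum]
    congr 2
  rw [h2]
  ring

/-- the generic point of a linear subspace is not zero -/
theorem gp_ne_zero {K L ι : Type} [Field K] [Field L] [Algebra K L] [Fintype ι] {n : ℕ}
    {fl : ℕ → ι → K} (h : LinearIndependent K (fun j : Fin (n + 1) => fl j)) (ζ : Fin n → L) :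
    (fun i => algebraMap K L (fl 0 i) + ∑ j : Fin n, ζ j * algebraMap K L (fl (j + 1) i)) ≠ 0 := by
  intro h0
  have h1 := li_ext (K := L) h
  rw [Fintype.linearIndependent_iff] at h1
  have h2 := h1 (Fin.cons 1 ζ) ?_ 0
  · simp at h2
  · rw [← h0]
    funext i
    rw [Finset.sum_apply, Fin.sum_univ_succ]
    simp [smul_eq_mul]

/-- the cone over a linear subspace -/
theorem cone_lin (hC : T_CYC2) (hLin : T_LIN) {K ι ιm : Type} [Field K] [CharZero K] [Fintype ι]
    [Fintype ιm] {fl : ℕ → ι → K} {flm : ℕ → ιm → K} (n : ℕ)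
    (hfl : LinearIndependent K (fun j : Fin (n + 2) => fl j))
    (hflm : LinearIndependent K (fun j : Fin (n + 1) => flm j)) (φ : ιm → ι → K)
    (hφ : ∀ i ≤ n, ∀ b, ∑ j, flm i j * φ j b = fl (i + 1) b)
    (Φ : (Set (MvPolynomial ιm K) →₀ ℤ) →+ (Set (MvPolynomial ι K) →₀ ℤ))
    (hΦ : IsFamMap (K0 := K) (K1 := K) (fl 0) φ Φ) : Φ (lin K flm n) = lin K fl (n + 1) := by
  obtain ⟨L, _, _, ζ, hζ⟩ := exists_isGen K n
  obtain ⟨h1, h2⟩ := isGen_ratFunc hζ
  rw [← hLin K ιm L n ζ flm hζ.1 hζ.2 hflm]
  rw [hΦ L _ (gp_ne_zero hflm ζ)]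
  rw [← hLin K ι (RatFunc L) (n + 1) _ fl h2.1 h2.2 hfl]
  congr 1
  funext i
  have h3 : lm φ (fun i => algebraMap K L (flm 0 i) +
      ∑ j : Fin n, ζ j * algebraMap K L (flm (j + 1) i)) i =
      algebraMap K L (fl 1 i) + ∑ j : Fin n, ζ j * algebraMap K L (fl (j + 2) i) := by
    simp only [lm]
    rw [← hφ 0 (Nat.zero_le _) i]
    have h4 : ∀ j : Fin n, fl (j + 2) i = ∑ m, flm (j + 1) m * φ m i := fun j =>
      (hφ (j + 1) j.2 i).symm
    simp only [h4, add_mul, Finset.sum_add_distrib, map_sum, map_mul, Finset.mul_sum, Finset.sum_mul]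
    congr 1
    rw [Finset.sum_comm]
    simp only [mul_assoc]
  simp only [gen, cst]
  rw [h3, ← IsScalarTower.algebraMap_apply K L (RatFunc L), Fin.sum_univ_succ]
  simp only [Fin.cons_zero, Fin.cons_succ, Fin.val_zero, Fin.val_succ, map_add, map_sum, map_mul,
    zero_add]
  simp only [← IsScalarTower.algebraMap_apply K L (RatFunc L)]
  rw [mul_add, Finset.mul_sum]
  simp only [mul_assoc]

/-- the embedding of a coordinate subspace -/
noncomputable def emb {ι ιm : Type} (K : Type) [Field K] (θ : ιm → ι) : ιm → ι → K := by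
  classical
  exact fun j i => if θ j = i then 1 else 0

theorem emb_apply {ι ιm K : Type} [Field K] [Fintype ιm] {θ : ιm → ι} (hθ : Function.Injective θ)
    (w : ιm → K) (j : ιm) : ∑ m, w m * emb K θ m (θ j) = w j := by
  classical
  unfold emb
  simp only [hθ.eq_iff]
  simp

theorem emb_out {ι ιm K : Type} [Field K] [Fintype ιm] {θ : ιm → ι}
    (w : ιm → K) {i : ι} (hi : i ∉ Set.range θ) : ∑ m, w m * emb K θ m i = 0 := by
  classical
  unfold emb
  refine Finset.sum_eq_zero fun m _ => ?_
  rw [if_neg, mul_zero]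
  rintro rfl
  exact hi ⟨m, rfl⟩

theorem lm_emb {ι ιm K L : Type} [Field K] [Field L] [Algebra K L] [Fintype ιm] {θ : ιm → ι}
    (w : ιm → L) (i : ι) : lm (emb K θ) w i = ∑ m, w m * emb L θ m i := by
  classical
  unfold lm emb
  refine Finset.sum_congr rfl fun m _ => ?_
  split_ifs <;> simp

/-- the cone is good -/
theorem good_cone {k K ι ιm : Type} [Field k] [Field K] [Algebra k K] [Fintype ι] [Fintype ιm]
    {d : ℕ} {F : MvPolynomial ι k} {Fm : MvPolynomial ιm k} (hF : F.IsHomogeneous d) {θ : ιm → ι}
    (hθ : Function.Injective θ) {p : ι → k} (hp : p ≠ 0) (hp' : ∀ j, p (θ j) = 0)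
    (hcone : ∀ (A : Type) [CommRing A] [Algebra k A] (P : ι → A) (α : A),
      (∀ j ∉ Set.range θ, P j = 0) →
        aeval (fun i => α * algebraMap k A (p i) + P i) F = aeval (fun j => P (θ j)) Fm) :
    Good (K0 := K) (K1 := K) (map (algebraMap k K) F) (map (algebraMap k K) Fm)
      (fun i => algebraMap k K (p i)) (emb K θ) := by
  classical
  constructor
  · intro κ _ _ e he _
    rw [LinearIndependent.pair_iff]
    intro a b hab
    have hb : b = 0 := by
      by_contra hb
      apply he
      funext j
      have h1 := congrFun hab (θ j)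
      simp only [Pi.add_apply, Pi.smul_apply, cst, smul_eq_mul, Pi.zero_apply] at h1
      rw [lm_emb, emb_apply hθ, hp', map_zero, map_zero, mul_zero, zero_add] at h1
      exact (mul_eq_zero.1 h1).resolve_left hb
    refine ⟨?_, hb⟩
    obtain ⟨i, hi⟩ := Function.ne_iff.1 hp
    have h1 := congrFun hab i
    rw [hb] at h1
    simp only [Pi.add_apply, Pi.smul_apply, cst, smul_eq_mul, Pi.zero_apply, zero_mul, add_zero] at h1
    refine (mul_eq_zero.1 h1).resolve_right ?_
    rw [_root_.map_eq_zero, _root_.map_eq_zero]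
    exact hi
  · intro κ _ i1 i0 hst e he
    have hii : i0 = i1 := by
      refine Algebra.algebra_ext _ _ fun r => ?_
      exact @IsScalarTower.algebraMap_apply K K κ _ _ _ _ i1 i0 hst r
    subst hii
    intro M _ iM _ hM α β
    letI : Algebra k M := ((algebraMap K M).comp (algebraMap k K)).toAlgebra
    haveI : IsScalarTower k K M := IsScalarTower.of_algebraMap_eq fun _ => rfl
    letI : Algebra k κ := ((algebraMap K κ).comp (algebraMap k K)).toAlgebra
    haveI : IsScalarTower k K κ := IsScalarTower.of_algebraMap_eq fun _ => rfl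
    haveI : IsScalarTower k κ M := IsScalarTower.of_algebraMap_eq fun x => by
      change algebraMap K M (algebraMap k K x) = algebraMap κ M (algebraMap K κ (algebraMap k K x))
      rw [← IsScalarTower.algebraMap_apply K κ M]
    rw [aeval_map_algebraMap] at he ⊢
    have h1 := hcone M (fun i => β * algebraMap κ M (lm (emb K θ) e i)) α ?_
    · have h2 : (fun i => α * algebraMap κ M (cst κ (fun i => algebraMap k K (p i)) i) +
          β * algebraMap κ M (lm (emb K θ) e i)) =
          fun i => α * algebraMap k M (p i) + β * algebraMap κ M (lm (emb K θ) e i) := by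
        funext i
        simp only [cst]
        rw [← IsScalarTower.algebraMap_apply k K κ, ← IsScalarTower.algebraMap_apply k κ M]
      rw [h2, h1]
      have h3 := hcone M (fun i => β * algebraMap κ M (lm (emb K θ) e i)) 0 ?_
      · rw [← h3]
        have h4 : (fun i => (0 : M) * algebraMap k M (p i) +
            β * algebraMap κ M (lm (emb K θ) e i)) =
            fun i => β * algebraMap κ M (lm (emb K θ) e i) := by
          funext i
          rw [zero_mul, zero_add]
        rw [h4, hom_mul hF]
        have h5 := hcone κ (fun i => lm (emb K θ) e i) 0 ?_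
        · have h6 : (fun i => (0 : κ) * algebraMap k κ (p i) + lm (emb K θ) e i) =
            lm (emb K θ) e := by
            funext i
            rw [zero_mul, zero_add]
          have h7 : (fun j => lm (emb K θ) e (θ j)) = e := by
            funext j
            rw [lm_emb, emb_apply hθ]
          rw [h6, h7, he] at h5
          have h8 : aeval (fun i => algebraMap κ M (lm (emb K θ) e i)) F =
              algebraMap κ M (aeval (lm (emb K θ) e) F) :=
            MvPolynomial.aeval_algebraMap_apply M (lm (emb K θ) e) F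
          rw [h8, h5, map_zero, mul_zero]
        · intro j hj
          rw [lm_emb, emb_out _ hj]
      · intro j hj
        rw [lm_emb, emb_out _ hj, map_zero, mul_zero]
    · intro j hj
      rw [lm_emb, emb_out _ hj, map_zero, mul_zero]

end Pool.Agent.Z15.J
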