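import Pool.Agent.Z15.J.Stm2
import Pool.Agent.Z15.H.TRIV

/-!
Generic points of linear subspaces and automorphisms of rational function fields.
-/

set_option autoImplicit false
set_option linter.all false

open FF MvPolynomial Pool.Agent.Z15.H Pool.Agent.Z15.J.Stm

namespace Pool.Agent.Z15.J

section

variable {K N N' : Type} [Field K] [Field N] [Field N'] [Algebra K N] [Algebra K N']

/-- `ζ` is an algebraically independent family of generators -/
def IsGen (K : Type) {N : Type} [Field K] [Field N] [Algebra K N] {m : ℕ} (ζ : Fin m → N) : Prop :=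
  AlgebraicIndependent K ζ ∧ IntermediateField.adjoin K (Set.range ζ) = ⊤

theorem IsGen.equiv {m : ℕ} {ζ : Fin m → N} {ζ' : Fin m → N'} (h : IsGen K ζ) (h' : IsGen K ζ') :
    ∃ ρ : N ≃ₐ[K] N', ∀ i, ρ (ζ i) = ζ' i := by
  have key : ∀ (N : Type) [Field N] [Algebra K N] (ζ : Fin m → N), IsGen K ζ →
      ∃ ρ : FractionRing (MvPolynomial (Fin m) K) ≃ₐ[K] N,
        ∀ i, ρ (algebraMap _ _ (X i : MvPolynomial (Fin m) K)) = ζ i := by
    intro N _ _ ζ h
    refine ⟨(h.1.aevalEquivField.trans (IntermediateField.equivOfEq h.2)).trans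
      IntermediateField.topEquiv, fun i => ?_⟩
    rw [AlgEquiv.trans_apply, AlgEquiv.trans_apply]
    have h1 := h.1.aevalEquivField_algebraMap_apply_coe (X i)
    rw [aeval_X] at h1
    rw [← h1]
    rfl
  obtain ⟨ρ, hρ⟩ := key N ζ h
  obtain ⟨ρ', hρ'⟩ := key N' ζ' h'
  refine ⟨ρ.symm.trans ρ', fun i => ?_⟩
  rw [AlgEquiv.trans_apply, ← hρ i, AlgEquiv.symm_apply_apply, hρ']

theorem IsGen.trdeg {m : ℕ} {ζ : Fin m → N} (h : IsGen K ζ) : Algebra.trdeg K N = m := by
  have h2 : Algebra.IsAlgebraic (IntermediateField.adjoin K (Set.range ζ)) N := by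
    rw [h.2]
    constructor
    intro x
    exact isAlgebraic_algebraMap (R := (⊤ : IntermediateField K N)) (⟨x, trivial⟩ : (⊤ : IntermediateField K N))
  have h1 : IsTranscendenceBasis K ζ := by
    rw [isTranscendenceBasis_iff_algebraicIndependent_isAlgebraic]
    refine ⟨h.1, ?_⟩
    open scoped IntermediateField.algebraAdjoinAdjoin in
    have h4 : Algebra.IsAlgebraic (Algebra.adjoin K (Set.range ζ))
      (IntermediateField.adjoin K (Set.range ζ)) := inferInstance
    open scoped IntermediateField.algebraAdjoinAdjoin in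
    exact Algebra.IsAlgebraic.trans (Algebra.adjoin K (Set.range ζ))
      (IntermediateField.adjoin K (Set.range ζ)) N
  have := h1.lift_cardinalMk_eq_trdeg
  simpa using this.symm

theorem isGen_of_trdeg {m : ℕ} {ζ : Fin m → N} (h : IntermediateField.adjoin K (Set.range ζ) = ⊤)
    (ht : Algebra.trdeg K N = m) : IsGen K ζ := by
  refine ⟨?_, h⟩
  have h2 : Algebra.IsAlgebraic (IntermediateField.adjoin K (Set.range ζ)) N := by
    rw [h]
    constructor
    intro x
    exact isAlgebraic_algebraMap (R := (⊤ : IntermediateField K N)) (⟨x, trivial⟩ : (⊤ : IntermediateField K N))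
  have h3 : Algebra.IsAlgebraic (Algebra.adjoin K (Set.range ζ)) N := by
    open scoped IntermediateField.algebraAdjoinAdjoin in
    have h4 : Algebra.IsAlgebraic (Algebra.adjoin K (Set.range ζ))
      (IntermediateField.adjoin K (Set.range ζ)) := inferInstance
    open scoped IntermediateField.algebraAdjoinAdjoin in
    exact Algebra.IsAlgebraic.trans (Algebra.adjoin K (Set.range ζ))
      (IntermediateField.adjoin K (Set.range ζ)) N
  exact (Algebra.IsAlgebraic.isTranscendenceBasis_of_lift_le_trdeg_of_finite K ζ (by simp [ht])).1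

theorem exists_isGen (K : Type) [Field K] (m : ℕ) : ∃ (N : Type) (_ : Field N) (_ : Algebra K N)
    (ζ : Fin m → N), IsGen K ζ := by
  refine ⟨FractionRing (MvPolynomial (Fin m) K), inferInstance, inferInstance,
    fun i => algebraMap _ _ (X i : MvPolynomial (Fin m) K), ?_, ?_⟩
  · have h1 := MvPolynomial.algebraicIndependent_X (Fin m) K
    exact h1.map' (f := IsScalarTower.toAlgHom K (MvPolynomial (Fin m) K)
      (FractionRing (MvPolynomial (Fin m) K))) (IsFractionRing.injective _ _)
  · rw [eq_top_iff]
    rintro x -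
    obtain ⟨a, b, hb, rfl⟩ := IsFractionRing.div_surjective (A := MvPolynomial (Fin m) K) x
    have key : ∀ a : MvPolynomial (Fin m) K, algebraMap (MvPolynomial (Fin m) K)
        (FractionRing (MvPolynomial (Fin m) K)) a ∈ IntermediateField.adjoin K
          (Set.range fun i => algebraMap (MvPolynomial (Fin m) K)
            (FractionRing (MvPolynomial (Fin m) K)) (X i : MvPolynomial (Fin m) K)) := by
      intro a
      induction a using MvPolynomial.induction_on with
      | C c =>
        have h1 : algebraMap (MvPolynomial (Fin m) K) (FractionRing (MvPolynomial (Fin m) K)) (C c) =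
            algebraMap K _ c := by
          rw [IsScalarTower.algebraMap_apply K (MvPolynomial (Fin m) K)
            (FractionRing (MvPolynomial (Fin m) K))]
          rfl
        rw [h1]
        exact IntermediateField.algebraMap_mem _ _
      | add p q hp hq =>
        rw [map_add]
        exact add_mem hp hq
      | mul_X p i hp =>
        rw [map_mul]
        exact mul_mem hp (IntermediateField.subset_adjoin K _ ⟨i, rfl⟩)
    exact div_mem (key a) (key b)

/-- the rational function field in `m + 1` variables, two choices of coordinates -/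
theorem isGen_ratFunc {m : ℕ} {ζ : Fin m → N} (h : IsGen K ζ) :
    IsGen K (Fin.cons (RatFunc.X : RatFunc N)⁻¹ fun j => algebraMap N (RatFunc N) (ζ j)) ∧
    IsGen K (Fin.cons (RatFunc.X : RatFunc N) fun j => RatFunc.X * algebraMap N (RatFunc N) (ζ j)) := by
  have hM := isFF_simple (RatFunc.transcendental_X (K := N)) RatFunc.adjoin_X
  have ht : Algebra.trdeg K (RatFunc N) = (m + 1 : ℕ) := by
    rw [← trdeg_add_eq K N, h.trdeg, hM.trdeg]
    push_cast
    rfl
  have hX0 : (RatFunc.X : RatFunc N) ≠ 0 := RatFunc.X_ne_zero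
  -- a subfield which contains `X` and the `ζ j` is everything
  have key : ∀ L : IntermediateField K (RatFunc N), RatFunc.X ∈ L →
      (∀ j, algebraMap N (RatFunc N) (ζ j) ∈ L) → L = ⊤ := by
    intro L hX hζ
    rw [eq_top_iff]
    rintro x -
    have h1 : ∀ y : N, algebraMap N (RatFunc N) y ∈ L := by
      intro y
      have h2 : (⊤ : IntermediateField K N) ≤
          L.comap (IsScalarTower.toAlgHom K N (RatFunc N)) := by
        rw [← h.2, IntermediateField.adjoin_le_iff]
        rintro z ⟨j, rfl⟩
        exact hζ j
      exact h2 (x := y) trivial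
    have h2 : x ∈ IntermediateField.adjoin N {(RatFunc.X : RatFunc N)} := by
      rw [RatFunc.adjoin_X]
      trivial
    let L' : IntermediateField N (RatFunc N) :=
      { L.toSubfield with
        algebraMap_mem' := fun y => h1 y
        inv_mem' := fun y hy => L.inv_mem hy }
    have h3 : IntermediateField.adjoin N {(RatFunc.X : RatFunc N)} ≤ L' := by
      rw [IntermediateField.adjoin_simple_le_iff]
      exact hX
    exact h3 h2
  constructor
  · refine isGen_of_trdeg (key _ ?_ fun j => ?_) ht
    · have h1 : (RatFunc.X : RatFunc N)⁻¹ ∈ IntermediateField.adjoin K (Set.range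
          (Fin.cons (RatFunc.X : RatFunc N)⁻¹ fun j => algebraMap N (RatFunc N) (ζ j) :
            Fin (m + 1) → RatFunc N)) :=
        IntermediateField.subset_adjoin K _ ⟨0, by simp⟩
      have := IntermediateField.inv_mem _ h1
      rwa [inv_inv] at this
    · exact IntermediateField.subset_adjoin K _ ⟨j.succ, by simp⟩
  · have h1 : (RatFunc.X : RatFunc N) ∈ IntermediateField.adjoin K (Set.range
        (Fin.cons (RatFunc.X : RatFunc N) fun j => RatFunc.X * algebraMap N (RatFunc N) (ζ j) :
          Fin (m + 1) → RatFunc N)) :=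
      IntermediateField.subset_adjoin K _ ⟨0, by simp⟩
    refine isGen_of_trdeg (key _ h1 fun j => ?_) ht
    have h2 : RatFunc.X * algebraMap N (RatFunc N) (ζ j) ∈ IntermediateField.adjoin K (Set.range
        (Fin.cons (RatFunc.X : RatFunc N) fun j => RatFunc.X * algebraMap N (RatFunc N) (ζ j) :
          Fin (m + 1) → RatFunc N)) :=
      IntermediateField.subset_adjoin K _ ⟨j.succ, by simp⟩
    have h3 := IntermediateField.div_mem _ h2 h1
    rwa [mul_div_cancel_left₀ _ hX0] at h3

end

end Pool.Agent.Z15.J
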