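import Pool.Agent.Z15.J.Div

/-!
The divisor of the coordinate function of a projective line bundle.
-/

set_option autoImplicit false
set_option linter.all false

open FF MvPolynomial Pool.Agent.Z15.H Pool.Agent.Z15.J.Stm

namespace Pool.Agent.Z15.J

theorem triv_place {k E M : Type} [Field k] [CharZero k] [Field E] [Field M] [Algebra k E]
    [Algebra k M] [Algebra E M] [IsScalarTower k E M] {σ : M} (hσ : Transcendental E σ)
    (hadj : IntermediateField.adjoin E {σ} = ⊤) :
    ∃ v : Place k M, (∀ x : E, x ≠ 0 → v.ord (algebraMap E M x) = 0) ∧ v.ord σ = 1 ∧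
      (∀ z : v.RF, ∃ x : E, v.red (algebraMap E M x) = z) ∧
      ∀ w : Place k M, (∀ x : E, x ≠ 0 → w.ord (algebraMap E M x) = 0) → 0 < w.ord σ → w = v := by
  have hM := isFF_simple hσ hadj
  have : CharZero E := charZero_of_injective_algebraMap (algebraMap k E).injective
  obtain ⟨S, hS, hdeg, hsum⟩ := FF.zeros (k := E) (K := M) hσ
  have hfr : Module.finrank (IntermediateField.adjoin E {σ}) M = 1 := by
    rw [hadj]
    exact IntermediateField.finrank_top
  rw [hfr] at hsum
  have h1 : ∀ w ∈ S, 1 ≤ (w.ord σ).toNat * w.deg := by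
    intro w hw
    have h2 := (hS w).1 hw
    have h3 := hdeg w hw
    have h4 : 0 < (w.ord σ).toNat := by omega
    exact Nat.mul_pos h4 h3
  have hcard : S.card ≤ 1 := by
    have h2 := Finset.card_nsmul_le_sum S _ 1 h1
    rw [hsum, smul_eq_mul, mul_one] at h2
    exact h2
  have hne : S.Nonempty := by
    rw [Finset.nonempty_iff_ne_empty]
    rintro rfl
    simp at hsum
  have h5 : S.card = 1 := le_antisymm hcard (Finset.card_pos.2 hne)
  obtain ⟨w0, rfl⟩ := Finset.card_eq_one.1 h5
  rw [Finset.sum_singleton] at hsum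
  have h6 := (hS w0).1 (Finset.mem_singleton_self w0)
  have h7 : (w0.ord σ).toNat = 1 := Nat.eq_one_of_mul_eq_one_right hsum
  have h8 : w0.deg = 1 := Nat.eq_one_of_mul_eq_one_left hsum
  let v : Place k M :=
    { ord := w0.ord
      ord_zero := w0.ord_zero
      ord_mul := w0.ord_mul
      ord_add := w0.ord_add
      ord_const := fun {c} hc => by
        rw [IsScalarTower.algebraMap_apply k E M]
        exact w0.ord_const ((_root_.map_ne_zero _).2 hc)
      surj := w0.surj }
  refine ⟨v, fun x hx => w0.ord_const hx, ?_, ?_, ?_⟩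
  · change w0.ord σ = 1
    omega
  · intro z
    obtain ⟨x, hx, rfl⟩ := v.red_surjective z
    have hx' : w0.Reg x := hx
    have h9 : Function.Surjective (algebraMap E w0.RF) := by
      intro y
      obtain ⟨c, hc⟩ := (finrank_eq_one_iff_of_nonzero' (1 : w0.RF) one_ne_zero).1 h8 y
      refine ⟨c, ?_⟩
      rw [← hc, Algebra.smul_def, mul_one]
    obtain ⟨y, hy⟩ := h9 (w0.red x)
    refine ⟨y, ?_⟩
    have h10 : w0.red (x - algebraMap E M y) = 0 := by
      rw [w0.red_sub hx' (w0.reg_const y), ← hy]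
      exact sub_self _
    have hyr : v.Reg (algebraMap E M y) := w0.reg_const y
    have h11 : w0.Reg (x - algebraMap E M y) := by
      rw [sub_eq_add_neg]
      exact w0.reg_add hx' (w0.reg_neg (w0.reg_const y))
    rw [w0.red_eq_zero_iff h11] at h10
    have h12 : v.Reg (x - algebraMap E M y) := h11
    have h13 : v.red (x - algebraMap E M y) = 0 := by
      rw [v.red_eq_zero_iff h12]
      exact h10
    rw [v.red_sub hx hyr] at h13
    exact (sub_eq_zero.1 h13).symm
  · intro w hw hwσ
    let w' : Place E M :=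
      { ord := w.ord
        ord_zero := w.ord_zero
        ord_mul := w.ord_mul
        ord_add := w.ord_add
        ord_const := fun {c} hc => hw c hc
        surj := w.surj }
    have h9 : w' = w0 := Finset.mem_singleton.1 ((hS w').2 hwσ)
    apply Place.ext
    change w'.ord = w0.ord
    rw [h9]

theorem trdeg_of_surj {k E E' : Type} [Field k] [Field E] [Algebra k E] [Field E'] [Algebra k E']
    (φ : E →ₐ[k] E') (hφ : Function.Surjective φ) : Algebra.trdeg k E' = Algebra.trdeg k E := by
  have e : E ≃ₐ[k] E' := AlgEquiv.ofBijective φ ⟨φ.toRingHom.injective, hφ⟩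
  exact (e.trdeg_eq).symm

theorem t_R (hF : T_FIN) (hC : T_CYC2) (hAb : T_ABH) (hL : T_LIM2) : T_R := by
  intro K _ _ ι E _ _ _ n hn F A B hAB hV
  classical
  obtain ⟨M, _, _, _, _, σ, hσ, hadj⟩ := exists_ruled K E
  obtain ⟨hA0, hB0⟩ := left_ne hAB
  have hQ := ruled_ne_zero' (M := M) hσ (A := A) hB0
  have hL1 : ∀ t : Place K E, ∃ a b : ι → t.RF, IsLim t A B a b := by
    intro t
    obtain ⟨⟨a, b, -, -, -, -, -, -, -, -, h⟩, -⟩ := hL K ι E A B hAB t
    exact ⟨a, b, h⟩
  choose a b hlim using hL1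
  obtain ⟨V, hV1, hV2, hV3, hV4⟩ := exists_V hC hAb hn.2 hσ hadj A B a b hlim
  obtain ⟨Q, hQd⟩ : ∃ Q : ι → M, Q = fun i => algebraMap E M (A i) + σ * algebraMap E M (B i) :=
    ⟨_, rfl⟩
  rw [← hQd] at hQ hV3 hV4
  have hR : ∀ v : Place K M, ∃ R, IsRed v Q R := fun v => exists_isRed v hQ
  choose R hR using hR
  have hσ0 : σ ≠ 0 := by
    rintro rfl
    exact hσ isAlgebraic_zero
  have hfin := hF K ι M n (isFG_ruled hn hσ hadj) Q σ R hR hσ0
  have hfin2 : {t : Place K E | Algebra.trdeg K t.RF + 1 = n ∧ (V t).ord σ ≠ 0 ∧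
      cyc K (gen (a t) (b t)) ≠ 0}.Finite := by
    refine Set.Finite.of_finite_image (f := V) (hfin.subset ?_) ?_
    · rintro v ⟨t, ⟨h1, h2, h3⟩, rfl⟩
      refine ⟨by rw [hV2, h1], h2, ?_⟩
      rwa [hV3 t _ (hR _)]
    · intro t _ t' _ htt
      have h1 := hV1 t
      rw [htt] at h1
      exact over_inj h1 (hV1 t')
  let S := hfin2.toFinset
  have hSm : ∀ t, t ∈ S ↔ Algebra.trdeg K t.RF + 1 = n ∧ (V t).ord σ ≠ 0 ∧
      cyc K (gen (a t) (b t)) ≠ 0 := by
    intro t
    simp only [S, Set.Finite.mem_toFinset]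
    exact Iff.rfl
  -- the two sections
  obtain ⟨v0, hv1, hv2, hv3, hv4⟩ := triv_place (k := K) hσ hadj
  have hσi : Transcendental E σ⁻¹ := by
    intro h
    apply hσ
    rw [← inv_inv σ]
    exact h.inv
  have hadji : IntermediateField.adjoin E {σ⁻¹} = ⊤ := by
    rw [eq_top_iff, ← hadj, IntermediateField.adjoin_simple_le_iff]
    have := (IntermediateField.adjoin E {σ⁻¹}).inv_mem
      (IntermediateField.mem_adjoin_simple_self E σ⁻¹)
    rwa [inv_inv] at this
  obtain ⟨v1, hw1, hw2, hw3, hw4⟩ := triv_place (k := K) hσi hadji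
  rw [v1.ord_inv] at hw2
  have hreg0 : ∀ x : E, v0.Reg (algebraMap E M x) := fun x => by
    by_cases hx : x = 0
    · rw [hx, map_zero]
      exact v0.reg_zero
    · exact Or.inr (hv1 x hx).ge
  have hreg1 : ∀ x : E, v1.Reg (algebraMap E M x) := fun x => by
    by_cases hx : x = 0
    · rw [hx, map_zero]
      exact v1.reg_zero
    · exact Or.inr (hw1 x hx).ge
  have hc0 : cyc K (R v0) = cyc K A := by
    have h1 : IsRed v0 Q (fun i => trivHom' v0 hv1 (A i)) := by
      refine ⟨?_, 1, one_ne_zero, fun i => ?_⟩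
      · intro h
        apply hA0
        funext i
        have := congrFun h i
        exact (map_eq_zero (trivHom' v0 hv1 : E →+* v0.RF)).1 this
      · have hσr : v0.Reg σ := Or.inr (by omega)
        have hσ1 : v0.red σ = 0 := by
          rw [v0.red_eq_zero_iff hσr]
          right
          omega
        rw [one_mul, hQd]
        refine ⟨v0.reg_add (hreg0 _) (v0.reg_mul hσr (hreg0 _)), ?_⟩
        simp only
        rw [v0.red_add (hreg0 _) (v0.reg_mul hσr (hreg0 _)), v0.red_mul hσr (hreg0 _), hσ1,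
          zero_mul, add_zero]
        rfl
    rw [cyc_red' hC (hR v0) h1]
    exact (hC K ι E).2.1 v0.RF (trivHom' v0 hv1) hv3 A
  have hc1 : cyc K (R v1) = cyc K B := by
    have h1 : IsRed v1 Q (fun i => trivHom' v1 hw1 (B i)) := by
      refine ⟨?_, σ⁻¹, inv_ne_zero hσ0, fun i => ?_⟩
      · intro h
        apply hB0
        funext i
        have := congrFun h i
        exact (map_eq_zero (trivHom' v1 hw1 : E →+* v1.RF)).1 this
      · have hσr : v1.Reg σ⁻¹ := Or.inr (by rw [v1.ord_inv]; omega)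
        have hσ1 : v1.red σ⁻¹ = 0 := by
          rw [v1.red_eq_zero_iff hσr]
          right
          rw [v1.ord_inv]
          omega
        have h2 : σ⁻¹ * Q i = σ⁻¹ * algebraMap E M (A i) + algebraMap E M (B i) := by
          rw [hQd]
          field_simp
        rw [h2]
        refine ⟨v1.reg_add (v1.reg_mul hσr (hreg1 _)) (hreg1 _), ?_⟩
        rw [v1.red_add (v1.reg_mul hσr (hreg1 _)) (hreg1 _), v1.red_mul hσr (hreg1 _), hσ1,
          zero_mul, zero_add]
        rfl
    rw [cyc_red' hC (hR v1) h1]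
    exact (hC K ι E).2.1 v1.RF (trivHom' v1 hw1) hw3 B
  have hF0 : Algebra.trdeg K v0.RF = n := by
    rw [trdeg_of_surj (trivHom' v0 hv1) hv3, hn.2]
  have hF1 : Algebra.trdeg K v1.RF = n := by
    rw [trdeg_of_surj (trivHom' v1 hw1) hw3, hn.2]
  have h01 : v0 ≠ v1 := by
    intro h
    rw [h] at hv2
    omega
  have hnt : ∀ (t : Place K E) (v : Place K M), (∀ x : E, x ≠ 0 → v.ord (algebraMap E M x) = 0) →
      v ≠ V t := by
    rintro t v hv rfl
    obtain ⟨x, hx, hx1⟩ := t.surj
    have := hv x hx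
    rw [(hV1 t).2 x, hx1] at this
    simp at this
  let T0 : Finset (Place K M) := insert v0 (insert v1 (S.image V))
  refine ⟨S, fun t => (V t).ord σ, a, b, hlim, fun t ht => ((hSm t).1 ht).1, ?_⟩
  refine AddSubgroup.subset_closure ⟨M, inferInstance, inferInstance, Q, σ,
    isFG_ruled hn hσ hadj, hQ, ?_, hσ0, T0.filter (fun v => cyc K (R v) ≠ 0), R, hR, ?_, ?_⟩
  · have h1 := hV M 1 σ
    rw [hQd]
    simpa using h1
  · intro v
    simp only [T0, Finset.mem_filter, Finset.mem_insert, Finset.mem_image]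
    constructor
    · rintro ⟨rfl | rfl | ⟨t, ht, rfl⟩, h2⟩
      · exact ⟨hF0, by omega, h2⟩
      · exact ⟨hF1, by omega, h2⟩
      · refine ⟨?_, ((hSm t).1 ht).2.1, h2⟩
        rw [hV2, ((hSm t).1 ht).1]
    · rintro ⟨h1, h2, h3⟩
      refine ⟨?_, h3⟩
      by_cases htr : ∃ f : E, v.ord (algebraMap E M f) ≠ 0
      · obtain ⟨e, t, ht⟩ := exists_over (K := E) v htr
        have h4 := hV4 t v e (R v) ht h1 (hR v) h3
        refine Or.inr (Or.inr ⟨t, ?_, h4.symm⟩)
        rw [hSm]
        subst h4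
        refine ⟨?_, h2, ?_⟩
        · rw [← hV2, h1]
        · rwa [← hV3 t _ (hR _)]
      · push Not at htr
        rcases lt_or_gt_of_ne h2 with h4 | h4
        · right
          left
          exact hw4 v (fun x _ => htr x) (by rw [v.ord_inv]; omega)
        · left
          exact hv4 v (fun x _ => htr x) h4
  · have h1 : ∑ v ∈ T0.filter (fun v => cyc K (R v) ≠ 0), v.ord σ • cyc K (R v) =
        ∑ v ∈ T0, v.ord σ • cyc K (R v) := by
      rw [Finset.sum_filter]
      refine Finset.sum_congr rfl fun v _ => ?_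
      by_cases h2 : cyc K (R v) = 0
      · simp [h2]
      · simp [h2]
    rw [h1]
    simp only [T0]
    rw [Finset.sum_insert, Finset.sum_insert, hc0, hc1, Finset.sum_image, hv2]
    · have h2 : v1.ord σ = -1 := by omega
      rw [h2, one_smul, neg_smul, one_smul]
      have h3 : ∑ t ∈ S, (V t).ord σ • cyc K (R (V t)) =
          ∑ t ∈ S, (V t).ord σ • cyc K (gen (a t) (b t)) :=
        Finset.sum_congr rfl fun t _ => by rw [hV3 t _ (hR _)]
      rw [h3]
      abel
    · intro t _ t' _ htt
      have h1 := hV1 t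
      rw [htt] at h1
      exact over_inj h1 (hV1 t')
    · intro h
      obtain ⟨t, -, h2⟩ := Finset.mem_image.1 h
      exact hnt t v1 hw1 h2.symm
    · intro h
      rcases Finset.mem_insert.1 h with h | h
      · exact h01 h
      · obtain ⟨t, -, h2⟩ := Finset.mem_image.1 h
        exact hnt t v0 hv1 h2.symm

end Pool.Agent.Z15.J
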