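import Pool.Agent.Z15.H.Defs

/-!
Cycles of dimension `l` on subvarieties of projective space over a field `K`, in terms of function
fields.
-/

set_option autoImplicit false

open FF MvPolynomial Pool.Agent.Z15.H

namespace Pool.Agent.Z15.J

/-- `E` is the function field of a variety of dimension `n` over `K`: it is finitely generated, of
transcendence degree `n`. -/
def IsFG (n : ℕ) (K E : Type) [Field K] [Field E] [Algebra K E] : Prop :=
  Algebra.EssFiniteType K E ∧ Algebra.trdeg K E = n

section

variable (K : Type) [Field K] {ι : Type}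

/-- `D` is the push-forward of the divisor of the function `h ≠ 0` on the variety of dimension `l + 1`
with the function field `M` under the rational map to projective space with homogeneous coordinates
`Q` (more precisely, on a normal projective model of the variety on which the map is defined): the
sum of the `v.ord h • [R v]`, where `v` are the discrete valuations of `M` whose residue fields have
transcendence degree `l` over `K`, and `R v` is the reduction of `Q` at `v`. There are only finitely
many `v` such that `v.ord h` and `[R v]` are not zero. -/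
def IsDivisor (l : ℕ) {M : Type} [Field M] [Algebra K M] (Q : ι → M) (h : M)
    (D : Set (MvPolynomial ι K) →₀ ℤ) : Prop :=
  ∃ (T : Finset (Place K M)) (R : ∀ v : Place K M, ι → v.RF), (∀ v, IsRed v Q (R v)) ∧
    (∀ v, v ∈ T ↔ Algebra.trdeg K v.RF = l ∧ v.ord h ≠ 0 ∧ cyc K (R v) ≠ 0) ∧
    D = ∑ v ∈ T, v.ord h • cyc K (R v)

/-- The cycles of dimension `l` on the projective hypersurface `F = 0` over `K` which are rationally
equivalent to zero: the group generated by the push-forwards of the divisors of rational functions on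
varieties of dimension `l + 1` which map to the hypersurface. -/
noncomputable def Rat (l : ℕ) (F : MvPolynomial ι K) : AddSubgroup (Set (MvPolynomial ι K) →₀ ℤ) :=
  AddSubgroup.closure {D | ∃ (M : Type) (_ : Field M) (_ : Algebra K M) (Q : ι → M) (h : M),
    IsFG (l + 1) K M ∧ Q ≠ 0 ∧ aeval Q F = 0 ∧ h ≠ 0 ∧ IsDivisor K l Q h D}

/-- the linear subspace of dimension `l` spanned by `fl 0, …, fl l` -/
noncomputable def lin (fl : ℕ → ι → K) (l : ℕ) : Set (MvPolynomial ι K) →₀ ℤ :=
  Finsupp.single {G | ∀ n, ∀ a : Fin (l + 1) → K,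
    eval (fun i => ∑ j, a j * fl j i) (homogeneousComponent n G) = 0} 1

/-- cycles which are multiples of `c0` modulo torsion and rational equivalence -/
def Sat (l : ℕ) (F : MvPolynomial ι K) (c0 : Set (MvPolynomial ι K) →₀ ℤ) :
    AddSubgroup (Set (MvPolynomial ι K) →₀ ℤ) where
  carrier := {c | ∃ N : ℕ, 0 < N ∧ ∃ m : ℤ, N • c - m • c0 ∈ Rat K l F}
  zero_mem' := ⟨1, one_pos, 0, by rw [smul_zero, zero_smul, sub_zero]; exact zero_mem _⟩
  add_mem' := by
    rintro x y ⟨N, hN, m, hx⟩ ⟨N', hN', m', hy⟩
    refine ⟨N * N', Nat.mul_pos hN hN', N' * m + N * m', ?_⟩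
    have h : (N * N') • (x + y) - ((N' : ℤ) * m + N * m') • c0 =
        N' • (N • x - m • c0) + N • (N' • y - m' • c0) := by
      simp only [smul_add, smul_sub, ← natCast_zsmul, smul_smul, add_smul, Nat.cast_mul]
      rw [mul_comm (N' : ℤ) (N : ℤ)]
      abel
    rw [h]
    exact add_mem (nsmul_mem hx _) (nsmul_mem hy _)
  neg_mem' := by
    rintro x ⟨N, hN, m, hx⟩
    refine ⟨N, hN, -m, ?_⟩
    have h : N • -x - (-m) • c0 = -(N • x - m • c0) := by
      rw [smul_neg, neg_smul]
      abel
    rw [h]
    exact neg_mem hx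

variable {K}

theorem Sat.of_nsmul {l : ℕ} {F : MvPolynomial ι K} {c0 c : Set (MvPolynomial ι K) →₀ ℤ} {N : ℕ}
    (hN : 0 < N) (h : N • c ∈ Sat K l F c0) : c ∈ Sat K l F c0 := by
  obtain ⟨M, hM, m, h1⟩ := h
  refine ⟨M * N, Nat.mul_pos hM hN, m, ?_⟩
  rw [mul_smul]
  exact h1

theorem Sat.of_rat {l : ℕ} {F : MvPolynomial ι K} {c0 c : Set (MvPolynomial ι K) →₀ ℤ}
    (h : c ∈ Rat K l F) : c ∈ Sat K l F c0 :=
  ⟨1, one_pos, 0, by rwa [one_smul, zero_smul, sub_zero]⟩

theorem Sat.self {l : ℕ} {F : MvPolynomial ι K} {c0 : Set (MvPolynomial ι K) →₀ ℤ} :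
    c0 ∈ Sat K l F c0 :=
  ⟨1, one_pos, 1, by rw [one_smul, one_smul, sub_self]; exact zero_mem _⟩

end

/-- the generic point of the line through `a` and `b` -/
noncomputable def gen {ι κ : Type} [Field κ] (a b : ι → κ) : ι → RatFunc κ := fun i =>
  algebraMap κ (RatFunc κ) (a i) + RatFunc.X * algebraMap κ (RatFunc κ) (b i)

/-- `a`, `b` is a basis of the limit at `t` of the line through `A` and `B` -/
def IsLim {K E ι : Type} [Field K] [Field E] [Algebra K E] (t : Place K E) (A B : ι → E)
    (a b : ι → t.RF) : Prop :=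
  LinearIndependent t.RF ![a, b] ∧ ∃ p q r s : E, p * s - q * r ≠ 0 ∧
    (∀ i, t.Reg (p * A i + q * B i) ∧ t.red (p * A i + q * B i) = a i) ∧
    ∀ i, t.Reg (r * A i + s * B i) ∧ t.red (r * A i + s * B i) = b i

/-- `F` vanishes on the line through `A` and `B` -/
def Vanish {K : Type} [Field K] {ι : Type} (F : MvPolynomial ι K) {E : Type} [Field E] [Algebra K E]
    (A B : ι → E) : Prop :=
  ∀ (M : Type) [Field M] [Algebra K M] [Algebra E M] [IsScalarTower K E M] (α β : M),
    aeval (fun i => α * algebraMap E M (A i) + β * algebraMap E M (B i)) F = 0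

/-- For the hypersurface `F = 0` over `k`: for all fields `K ⊇ k` and all `l ≤ s`, all cycles of dimension
`l` on the hypersurface over `K` are multiples of the linear subspace spanned by `fl 0, …, fl l`, modulo
torsion and rational equivalence. -/
def RR (k : Type) [Field k] {ι : Type} (F : MvPolynomial ι k) (s : ℕ) (fl : ℕ → ι → k) : Prop :=
  ∀ (K : Type) [Field K] [Algebra k K] (l : ℕ), l ≤ s →
    ∀ (E : Type) [Field E] [Algebra K E] (P : ι → E), Algebra.trdeg K E = l → P ≠ 0 →
      aeval P (map (algebraMap k K) F) = 0 →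
      cyc K P ∈ Sat K l (map (algebraMap k K) F) (lin K (fun i j => algebraMap k K (fl i j)) l)

end Pool.Agent.Z15.J
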