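import Pool.Agent.Z15.J.Ind2

/-!
The main theorem, for a polynomial which is a sum of forms in disjoint sets of variables.
-/

set_option autoImplicit false
set_option linter.all false

open FF MvPolynomial Pool.Agent.Z15.H Pool.Agent.Z15.J Pool.Agent.Z15.J.Stm Pool.Agent.T2h62.J15

namespace Pool.Agent.Z15.J

theorem exists_block_zero {k κ : Type} [Field k] [IsAlgClosed k] [Fintype κ] {d : ℕ} (hd : 2 ≤ d)
    (hκ : d ≤ Fintype.card κ) {f : MvPolynomial κ k} (hf : f.IsHomogeneous d) :
    ∃ p : κ → k, p ≠ 0 ∧ eval p f = 0 := by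
  obtain ⟨c, hc, h⟩ := Pool.Agent.T2h69.H15.common_zero' (I := κ) (J := Unit) (L := k)
    (by rw [Fintype.card_unit]; omega) (fun _ => f) (fun _ => d) (fun _ => by omega) (fun _ => hf)
  exact ⟨c, hc, h ()⟩

theorem main (k : Type) [Field k] [IsAlgClosed k] [CharZero k] (d s : ℕ) (hd : 2 ≤ d) {ι : Type}
    [Fintype ι] (b : ι → Fin (s + 1)) (f : Fin (s + 1) → MvPolynomial ι k)
    (hf : ∀ j, (f j).IsHomogeneous d) (hb : ∀ j, ∀ i ∈ (f j).vars, b i = j)
    (hd' : ∀ j, d ≤ Nat.card {i // b i = j}) (hι : (s + 1) * d < Fintype.card ι) :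
    ∃ Λ : ℕ → ι → k, (LinearIndependent k fun j : Fin (s + 1) => Λ j) ∧
      (∀ a : Fin (s + 1) → k, eval (fun i => ∑ j, a j * Λ j i) (∑ j, f j) = 0) ∧
      RR k (∑ j, f j) s Λ := by
  classical
  -- the large block
  obtain ⟨j0, hj0⟩ : ∃ j0, d < Nat.card {i // b i = j0} := by
    by_contra hcon
    push Not at hcon
    have h1 : Fintype.card ι = ∑ j, Nat.card {i // b i = j} := by
      rw [Fintype.card_congr (Equiv.sigmaFiberEquiv b).symm, Fintype.card_sigma]
      refine Finset.sum_congr rfl fun j _ => ?_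
      rw [Nat.card_eq_fintype_card]
    have h2 : ∑ j, Nat.card {i // b i = j} ≤ ∑ _j : Fin (s + 1), d :=
      Finset.sum_le_sum fun j _ => hcon j
    rw [Finset.sum_const, Finset.card_univ, Fintype.card_fin, smul_eq_mul] at h2
    omega
  obtain ⟨π, hπ⟩ : ∃ π : Equiv.Perm (Fin (s + 1)), π 0 = j0 := ⟨Equiv.swap 0 j0, Equiv.swap_apply_left _ _⟩
  -- the blocks
  have hg : ∀ j, ∃ g : MvPolynomial {i // b i = π j} k, rename Subtype.val g = f (π j) := by
    intro j
    refine exists_rename_eq_of_vars_subset_range (f (π j)) Subtype.val Subtype.val_injective ?_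
    intro i hi
    exact ⟨⟨i, hb _ i hi⟩, rfl⟩
  choose g hg using hg
  have hgh : ∀ j, (g j).IsHomogeneous d := by
    intro j
    rw [← IsHomogeneous.rename_isHomogeneous_iff Subtype.val_injective, hg]
    exact hf _
  have hcard : ∀ j, d ≤ Fintype.card {i // b i = π j} := fun j => by
    rw [← Nat.card_eq_fintype_card]
    exact hd' _
  have hcard0 : d + 1 ≤ Fintype.card {i // b i = π 0} := by
    rw [← Nat.card_eq_fintype_card, hπ]
    exact hj0
  have hp : ∀ j, ∃ p : {i // b i = π j} → k, p ≠ 0 ∧ eval p (g j) = 0 :=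
    fun j => exists_block_zero hd (hcard j) (hgh j)
  choose p hp0 hp using hp
  have h1 := t_IND2 k d hd s (fun j => {i // b i = π j}) g hgh hcard hcard0 p hp0 hp
  -- the equivalence of the variables
  let σ : (Σ j, {i // b i = π j}) ≃ ι :=
    (Equiv.sigmaCongrLeft (β := fun j => {i // b i = j}) π).trans (Equiv.sigmaFiberEquiv b)
  have hσ : ∀ x, σ x = x.2.1 := fun x => rfl
  have h2 := RR_reindex σ h1
  have h3 : rename σ (sumF g) = ∑ j, f j := by
    have h4 : ∑ j, f j = ∑ j, f (π j) := (Equiv.sum_comp π f).symm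
    unfold sumF
    rw [map_sum, h4]
    refine Finset.sum_congr rfl fun j _ => ?_
    rw [rename_rename, ← hg j]
    rfl
  rw [h3] at h2
  refine ⟨fun i j => flagF p i (σ.symm j), ?_, ?_, h2⟩
  · have h4 := flagF_li hp0
    have h5 : LinearIndependent k fun j : Fin (s + 1) => (LinearEquiv.funCongrLeft k k σ.symm) (flagF p j) :=
      h4.map' (LinearEquiv.funCongrLeft k k σ.symm).toLinearMap (LinearEquiv.ker _)
    exact h5
  · intro a
    have h4 := flagF_vanish hgh hp k (fun n => if h : n < s + 1 then a ⟨n, h⟩ else 0)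
    rw [← h3, eval_rename, ← MvPolynomial.coe_aeval_eq_eval, RingHom.coe_coe, ← h4]
    congr 2
    funext i
    rw [Finset.sum_range]
    change ∑ j, a j * flagF p j (σ.symm (σ i)) = _
    rw [Equiv.symm_apply_apply]
    refine Finset.sum_congr rfl fun j _ => ?_
    rw [dif_pos j.2]
    rfl

end Pool.Agent.Z15.J
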