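import Pool.Agent.Z15.J.Stm2
import Pool.Agent.Z15.H.GEX
import Pool.Agent.Z15.H.TRIV
import Pool.Agent.Z15.H.D1

/-!
The Gauss extension of a place, general residue field.
-/

set_option autoImplicit false
set_option linter.all false

open FF Polynomial Pool.Agent.Z15.H

namespace Pool.Agent.Z15.J

section

variable {K E M : Type} [Field K] [Field E] [Algebra K E] [Field M] [Algebra K M] [Algebra E M]
  [IsScalarTower K E M]

/-- the polynomial of the residues of the coefficients -/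
noncomputable def redP (t : Place K E) (p : E[X]) : t.RF[X] :=
  ∑ i ∈ Finset.range (p.natDegree + 1), monomial i (t.red (p.coeff i))

theorem redP_coeff (t : Place K E) (p : E[X]) (i : ℕ) : (redP t p).coeff i = t.red (p.coeff i) := by
  unfold redP
  rw [finset_sum_coeff]
  simp only [coeff_monomial]
  rw [Finset.sum_ite_eq' (Finset.range (p.natDegree + 1)) i]
  split_ifs with h
  · rfl
  · have h2 : p.coeff i = 0 := by
      apply coeff_eq_zero_of_natDegree_lt
      simpa using h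
    rw [h2, t.red_zero]

/-- `red σ` is transcendental over the residue field of `t` -/
def Tr {t : Place K E} {v : Place K M} {e : ℕ} (hv : Over v t e) (σ : M) : Prop :=
  ∀ p : t.RF[X], p ≠ 0 → p.eval₂ (hv.resMap : t.RF →+* v.RF) (v.red σ) ≠ 0

theorem red_poly' {t : Place K E} {v : Place K M} {e : ℕ} (hv : Over v t e) {σ : M}
    (hσ : v.Reg σ) (p : E[X]) (hp : ∀ i, t.Reg (p.coeff i)) :
    v.Reg (aeval σ p) ∧
      v.red (aeval σ p) = (redP t p).eval₂ (hv.resMap : t.RF →+* v.RF) (v.red σ) := by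
  classical
  have hterm : ∀ i, v.Reg (algebraMap E M (p.coeff i) * σ ^ i) ∧
      v.red (algebraMap E M (p.coeff i) * σ ^ i) =
        (hv.resMap : t.RF →+* v.RF) (t.red (p.coeff i)) * v.red σ ^ i := by
    intro i
    have h2 := hv.reg.2 (hp i)
    refine ⟨v.reg_mul h2 (reg_pow v hσ i), ?_⟩
    rw [v.red_mul h2 (reg_pow v hσ i), v.red_pow hσ]
    congr 1
    exact (hv.resMap_red (hp i)).symm
  have h2 : aeval σ p = ∑ i ∈ Finset.range (p.natDegree + 1), algebraMap E M (p.coeff i) * σ ^ i := by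
    rw [aeval_def, eval₂_eq_sum_range]
  obtain ⟨h3, h4⟩ := red_sum v (Finset.range (p.natDegree + 1))
    (fun i => algebraMap E M (p.coeff i) * σ ^ i) fun i _ => (hterm i).1
  rw [h2]
  refine ⟨h3, ?_⟩
  rw [h4]
  unfold redP
  rw [eval₂_finset_sum]
  refine Finset.sum_congr rfl fun i _ => ?_
  rw [(hterm i).2, eval₂_monomial]

theorem exists_min' (t : Place K E) {p : E[X]} (hp : p ≠ 0) : ∃ i, p.coeff i ≠ 0 ∧
    ∀ j, t.Reg ((p.coeff i)⁻¹ * p.coeff j) := by
  classical
  obtain ⟨i, hi, hmin⟩ := Finset.exists_min_image p.support (fun i => t.ord (p.coeff i))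
    (by rwa [Finset.nonempty_iff_ne_empty, Ne, support_eq_empty])
  rw [mem_support_iff] at hi
  refine ⟨i, hi, fun j => ?_⟩
  by_cases hj : p.coeff j = 0
  · rw [hj, mul_zero]
    exact t.reg_zero
  · right
    rw [t.ord_mul (inv_ne_zero hi) hj, t.ord_inv]
    have := hmin j (mem_support_iff.2 hj)
    omega

theorem ord_poly' {t : Place K E} {v : Place K M} {e : ℕ} (hv : Over v t e) {σ : M}
    (hσ : v.Reg σ) (htr : Tr hv σ) (p : E[X]) (i : ℕ) (hi : p.coeff i ≠ 0)
    (hmin : ∀ j, t.Reg ((p.coeff i)⁻¹ * p.coeff j)) :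
    aeval σ p ≠ 0 ∧ v.ord (aeval σ p) = e * t.ord (p.coeff i) := by
  obtain ⟨h1, h2⟩ := red_poly' hv hσ (C (p.coeff i)⁻¹ * p) (fun j => by
    rw [coeff_C_mul]
    exact hmin j)
  have h3 : redP t (C (p.coeff i)⁻¹ * p) ≠ 0 := by
    intro h0
    have := redP_coeff t (C (p.coeff i)⁻¹ * p) i
    rw [h0, coeff_C_mul, inv_mul_cancel₀ hi, t.red_one] at this
    simp at this
  have h4 := htr _ h3
  rw [← h2] at h4
  have h5 : aeval σ (C (p.coeff i)⁻¹ * p) ≠ 0 := by
    intro h0
    rw [h0, v.red_zero] at h4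
    exact h4 rfl
  have h6 : v.ord (aeval σ (C (p.coeff i)⁻¹ * p)) = 0 := by
    by_contra hcon
    apply h4
    rw [v.red_eq_zero_iff h1]
    right
    have := (v.reg_iff h5).1 h1
    omega
  rw [map_mul, aeval_C] at h5 h6
  have h7 : aeval σ p ≠ 0 := right_ne_zero_of_mul h5
  have h8 : algebraMap E M (p.coeff i)⁻¹ ≠ 0 := left_ne_zero_of_mul h5
  refine ⟨h7, ?_⟩
  rw [v.ord_mul h8 h7, hv.2, t.ord_inv] at h6
  linarith

theorem exists_frac' {σ : M} (hadj : IntermediateField.adjoin E {σ} = ⊤) (x : M) :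
    ∃ p q : E[X], x = aeval σ p / aeval σ q := by
  have h : x ∈ IntermediateField.adjoin E {σ} := by
    rw [hadj]
    trivial
  rwa [IntermediateField.mem_adjoin_simple_iff] at h

theorem index_one' {t : Place K E} {v : Place K M} {e : ℕ} (hv : Over v t e) {σ : M}
    (hadj : IntermediateField.adjoin E {σ} = ⊤) (hσ : v.Reg σ) (htr : Tr hv σ) : e = 1 := by
  obtain ⟨x, hx, hx1⟩ := v.surj
  obtain ⟨p, q, rfl⟩ := exists_frac' hadj x
  have hp : p ≠ 0 := by
    rintro rfl
    simp at hx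
  have hq : q ≠ 0 := by
    rintro rfl
    simp at hx
  obtain ⟨i, hi, hi'⟩ := exists_min' t hp
  obtain ⟨j, hj, hj'⟩ := exists_min' t hq
  obtain ⟨h1, h2⟩ := ord_poly' hv hσ htr p i hi hi'
  obtain ⟨h3, h4⟩ := ord_poly' hv hσ htr q j hj hj'
  rw [v.ord_div h1 h3, h2, h4, ← mul_sub] at hx1
  have h5 : (e : ℤ) ∣ 1 := Dvd.intro _ hx1
  have h6 : (e : ℤ) = 1 := Int.eq_one_of_dvd_one (by positivity) h5
  exact_mod_cast h6

/-- uniqueness of the Gauss extension -/
theorem gauss_unique {t : Place K E} {v w : Place K M} {e e' : ℕ} (hv : Over v t e)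
    (hw : Over w t e') {σ : M} (hadj : IntermediateField.adjoin E {σ} = ⊤) (hσ : v.Reg σ)
    (htr : Tr hv σ) (hσ' : w.Reg σ) (htr' : Tr hw σ) : w = v := by
  have he := index_one' hv hadj hσ htr
  have he' := index_one' hw hadj hσ' htr'
  subst he he'
  have h : ∀ x : M, w.ord x = v.ord x := by
    intro x
    obtain ⟨p, q, rfl⟩ := exists_frac' hadj x
    by_cases hp : p = 0
    · subst hp
      simp [v.ord_zero, w.ord_zero]
    by_cases hq : q = 0
    · subst hq
      simp [v.ord_zero, w.ord_zero]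
    obtain ⟨i, hi, hi'⟩ := exists_min' t hp
    obtain ⟨j, hj, hj'⟩ := exists_min' t hq
    obtain ⟨h1, h2⟩ := ord_poly' hv hσ htr p i hi hi'
    obtain ⟨h3, h4⟩ := ord_poly' hv hσ htr q j hj hj'
    obtain ⟨h5, h6⟩ := ord_poly' hw hσ' htr' p i hi hi'
    obtain ⟨h7, h8⟩ := ord_poly' hw hσ' htr' q j hj hj'
    rw [v.ord_div h1 h3, w.ord_div h5 h7, h2, h4, h6, h8]
  exact Place.ext (funext h)

/-- the residue field of the Gauss extension -/
theorem gauss_residue {t : Place K E} {v : Place K M} {e : ℕ} (hv : Over v t e) {σ : M}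
    (hadj : IntermediateField.adjoin E {σ} = ⊤) (hσ : v.Reg σ) (htr : Tr hv σ) (y : v.RF) :
    ∃ p q : t.RF[X], q.eval₂ (hv.resMap : t.RF →+* v.RF) (v.red σ) ≠ 0 ∧
      y = p.eval₂ (hv.resMap : t.RF →+* v.RF) (v.red σ) /
        q.eval₂ (hv.resMap : t.RF →+* v.RF) (v.red σ) := by
  have he := index_one' hv hadj hσ htr
  subst he
  obtain ⟨x, hx, rfl⟩ := v.red_surjective y
  by_cases hx0 : x = 0
  · refine ⟨0, 1, by simp, ?_⟩
    rw [hx0, v.red_zero]
    simp
  obtain ⟨p, q, hpq⟩ := exists_frac' hadj x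
  have hp : p ≠ 0 := by
    rintro rfl
    apply hx0
    rw [hpq]
    simp
  have hq : q ≠ 0 := by
    rintro rfl
    apply hx0
    rw [hpq]
    simp
  obtain ⟨i, hi, hi'⟩ := exists_min' t hp
  obtain ⟨j, hj, hj'⟩ := exists_min' t hq
  obtain ⟨h1, h2⟩ := ord_poly' hv hσ htr p i hi hi'
  obtain ⟨h3, h4⟩ := ord_poly' hv hσ htr q j hj hj'
  have h5 : 0 ≤ v.ord x := (v.reg_iff hx0).1 hx
  rw [hpq, v.ord_div h1 h3, h2, h4] at h5
  have h6 : 0 ≤ t.ord (p.coeff i) - t.ord (q.coeff j) := by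
    simpa using h5
  obtain ⟨hq2, hq3⟩ := red_poly' hv hσ (C (q.coeff j)⁻¹ * q) (fun n => by
    rw [coeff_C_mul]
    exact hj' n)
  obtain ⟨hp2, hp3⟩ := red_poly' hv hσ (C (q.coeff j)⁻¹ * p) (fun n => by
    rw [coeff_C_mul]
    have h7 : (q.coeff j)⁻¹ * p.coeff n = ((q.coeff j)⁻¹ * p.coeff i) * ((p.coeff i)⁻¹ * p.coeff n) := by
      field_simp
    rw [h7]
    refine t.reg_mul (Or.inr ?_) (hi' n)
    rw [t.ord_mul (inv_ne_zero hj) hi, t.ord_inv]
    omega)
  have hq4 : redP t (C (q.coeff j)⁻¹ * q) ≠ 0 := by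
    intro h0
    have := redP_coeff t (C (q.coeff j)⁻¹ * q) j
    rw [h0, coeff_C_mul, inv_mul_cancel₀ hj, t.red_one] at this
    simp at this
  have hq5 := htr _ hq4
  refine ⟨redP t (C (q.coeff j)⁻¹ * p), redP t (C (q.coeff j)⁻¹ * q), hq5, ?_⟩
  rw [eq_div_iff hq5, ← hq3, ← hp3, ← v.red_mul hx hq2]
  congr 1
  rw [hpq, map_mul, map_mul]
  field_simp

/-- existence of the Gauss extension -/
theorem gauss_exists (t : Place K E) {σ : M} (hσ : Transcendental E σ)
    (hadj : IntermediateField.adjoin E {σ} = ⊤) :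
    ∃ (v : Place K M) (hv : Over v t 1), v.Reg σ ∧ Tr hv σ := by
  classical
  let ordM : M → ℤ := fun x => if h : ∃ n, VG t σ x n then h.choose else 0
  have hord : ∀ {x : M} {n : ℤ}, VG t σ x n → ordM x = n := by
    intro x n h
    have h1 : ∃ n, VG t σ x n := ⟨n, h⟩
    simp only [ordM, dif_pos h1]
    exact h1.choose_spec.unique hσ h
  have hspec : ∀ {x : M}, x ≠ 0 → VG t σ x (ordM x) := by
    intro x hx
    obtain ⟨n, hn⟩ := VG.exists (t := t) hσ hadj hx
    rw [hord hn]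
    exact hn
  have hone : Mn t (1 : E[X]) 0 := by
    have := Mn.C (t := t) (one_ne_zero (α := E))
    rwa [t.ord_one, C_1] at this
  have hconst : ∀ x : E, x ≠ 0 → VG t σ (algebraMap E M x) (t.ord x) := by
    intro x hx
    exact ⟨C x, 1, t.ord x, 0, Mn.C hx, hone, by simp, by simp⟩
  let v : Place K M :=
    { ord := ordM
      ord_zero := by
        have h : ¬ ∃ n, VG t σ (0 : M) n := fun ⟨n, hn⟩ => hn.ne_zero hσ rfl
        simp only [ordM, dif_neg h]
      ord_mul := fun {x y} hx hy => hord ((hspec hx).mul (hspec hy))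
      ord_add := fun {x y} hx hy hxy => (hspec hx).add hσ (hspec hy) (hspec hxy)
      ord_const := fun {c} hc => by
        have h1 : algebraMap K E c ≠ 0 := (_root_.map_ne_zero _).2 hc
        have h2 := hconst _ h1
        rw [t.ord_const hc, ← IsScalarTower.algebraMap_apply] at h2
        exact hord h2
      surj := by
        obtain ⟨x, hx, hx1⟩ := t.surj
        refine ⟨algebraMap E M x, (_root_.map_ne_zero _).2 hx, ?_⟩
        rw [hord (hconst x hx), hx1] }
  have hv : Over v t 1 := by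
    refine ⟨one_pos, fun f => ?_⟩
    by_cases hf : f = 0
    · rw [hf, map_zero, v.ord_zero, t.ord_zero, mul_zero]
    · rw [Nat.cast_one, one_mul]
      exact hord (hconst f hf)
  have hσ0 : σ ≠ 0 := by
    rintro rfl
    exact hσ isAlgebraic_zero
  have hX : Mn t (X : E[X]) 0 := by
    refine ⟨⟨1, ?_, ?_⟩, fun j hj => ?_⟩
    · rw [coeff_X_one]
      exact one_ne_zero
    · rw [coeff_X_one, t.ord_one]
    · rw [coeff_X] at hj ⊢
      split_ifs at hj ⊢
      · rw [t.ord_one]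
      · exact absurd rfl hj
  have hvr : v.Reg σ := by
    right
    have h1 : VG t σ σ 0 := ⟨X, 1, 0, 0, hX, hone, by simp, by simp⟩
    exact (hord h1).ge
  refine ⟨v, hv, hvr, fun p hp h0 => ?_⟩
  -- lift the polynomial
  have hl : ∀ c : t.RF, ∃ x : E, t.Reg x ∧ t.red x = c := t.red_surjective
  choose lf hl1 hl2 using hl
  obtain ⟨P, hP⟩ : ∃ P : E[X], P = ∑ i ∈ Finset.range (p.natDegree + 1), monomial i (lf (p.coeff i)) :=
    ⟨_, rfl⟩
  have hPc : ∀ i, t.Reg (P.coeff i) ∧ t.red (P.coeff i) = p.coeff i := by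
    intro i
    rw [hP, finset_sum_coeff]
    simp only [coeff_monomial]
    rw [Finset.sum_ite_eq' (Finset.range (p.natDegree + 1)) i]
    split_ifs with h
    · exact ⟨hl1 _, hl2 _⟩
    · refine ⟨t.reg_zero, ?_⟩
      have h2 : p.coeff i = 0 := by
        apply coeff_eq_zero_of_natDegree_lt
        simpa using h
      rw [h2, t.red_zero]
  obtain ⟨h1, h2⟩ := red_poly' hv hvr P fun i => (hPc i).1
  have h3 : redP t P = p := by
    ext i
    rw [redP_coeff, (hPc i).2]
  rw [h3, h0] at h2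
  obtain ⟨i, hi⟩ : ∃ i, p.coeff i ≠ 0 := by
    by_contra hcon
    push Not at hcon
    exact hp (Polynomial.ext hcon)
  have hi' : P.coeff i ≠ 0 := by
    intro h4
    apply hi
    rw [← (hPc i).2, h4, t.red_zero]
  have hMn : Mn t P 0 := by
    refine ⟨⟨i, hi', ?_⟩, fun j hj => (t.reg_iff hj).1 (hPc j).1⟩
    by_contra hcon
    apply hi
    rw [← (hPc i).2, t.red_eq_zero_iff (hPc i).1]
    right
    have := (t.reg_iff hi').1 (hPc i).1
    omega
  have hVG : VG t σ (aeval σ P) 0 := ⟨P, 1, 0, 0, hMn, hone, by simp, by simp⟩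
  have h4 : v.ord (aeval σ P) = 0 := hord hVG
  exact v.red_ne_zero (hVG.ne_zero hσ) h4 h2

end

end Pool.Agent.Z15.J
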