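import Pool.Agent.Z15.J.All
import Pool.Agent.T2h62.J15.INDi

/-!
The sharp induction on the number of blocks of variables (adapted from helper62's `INDi.lean`).
-/

set_option autoImplicit false
set_option linter.all false

open FF MvPolynomial Pool.Agent.Z15.H Pool.Agent.Z15.J Pool.Agent.Z15.J.Stm Pool.Agent.T2h62.J15
  Pool.Agent.T2h99.J

namespace Pool.Agent.Z15.J

section forms

variable {k : Type} [Field k] {r : ℕ} {κ : Fin r → Type}

/-- the form `f_0(x_0) + … + f_(r-1)(x_(r-1))` in disjoint sets of variables -/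
noncomputable def sumF (f : ∀ j, MvPolynomial (κ j) k) : MvPolynomial (Σ j, κ j) k :=
  ∑ j, rename (fun a => ⟨j, a⟩) (f j)

/-- the points `p (r-1), …, p 0` -/
def flagF (p : ∀ j, κ j → k) (i : ℕ) : (Σ j, κ j) → k :=
  fun a => if (a.1 : ℕ) + i + 1 = r then p a.1 a.2 else 0

theorem aeval_sumF (f : ∀ j, MvPolynomial (κ j) k) {A : Type} [CommRing A] [Algebra k A]
    (P : (Σ j, κ j) → A) : aeval P (sumF f) = ∑ j, aeval (fun a => P ⟨j, a⟩) (f j) := by
  unfold sumF
  rw [map_sum]
  refine Finset.sum_congr rfl fun j _ => ?_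
  rw [aeval_rename]
  rfl

theorem sumF_hom {d : ℕ} {f : ∀ j, MvPolynomial (κ j) k} (hf : ∀ j, (f j).IsHomogeneous d) :
    (sumF f).IsHomogeneous d :=
  IsHomogeneous.sum _ _ _ fun j _ => (hf j).rename_isHomogeneous

theorem flagF_li {p : ∀ j, κ j → k} (hp : ∀ j, p j ≠ 0) :
    LinearIndependent k fun j : Fin r => flagF p j := by
  classical
  rw [Fintype.linearIndependent_iff]
  intro c hc i
  have hi2 := i.2
  have hlt : r - 1 - (i : ℕ) < r := by omega
  obtain ⟨m, hm⟩ := Function.ne_iff.1 (hp ⟨r - 1 - i, hlt⟩)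
  have h1 := congrFun hc ⟨⟨r - 1 - i, hlt⟩, m⟩
  rw [Finset.sum_apply, Finset.sum_eq_single i] at h1
  · rw [Pi.smul_apply, flagF, if_pos (by simp; omega), smul_eq_mul, Pi.zero_apply] at h1
    exact (mul_eq_zero.1 h1).resolve_right hm
  · intro j _ hj
    rw [Pi.smul_apply, flagF, if_neg, smul_zero]
    intro h2
    apply hj
    apply Fin.ext
    simp only at h2
    omega
  · intro h
    exact absurd (Finset.mem_univ i) h

/-- the flag is contained in the hypersurface -/
theorem flagF_vanish {d : ℕ} {f : ∀ j, MvPolynomial (κ j) k} (hf : ∀ j, (f j).IsHomogeneous d)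
    {p : ∀ j, κ j → k} (hfp : ∀ j, eval (p j) (f j) = 0) (A : Type) [CommRing A] [Algebra k A]
    (a : ℕ → A) :
    aeval (fun i => ∑ j ∈ Finset.range r, a j * algebraMap k A (flagF p j i)) (sumF f) = 0 := by
  rw [aeval_sumF]
  refine Finset.sum_eq_zero fun j _ => ?_
  have hj := j.2
  have h2 : (fun x : κ j => ∑ i ∈ Finset.range r, a i * algebraMap k A (flagF p i ⟨j, x⟩)) =
      fun x => a (r - 1 - j) * algebraMap k A (p j x) := by
    funext x
    rw [Finset.sum_eq_single (r - 1 - j)]
    · rw [flagF, if_pos]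
      simp only
      omega
    · intro i _ hi
      rw [flagF, if_neg, map_zero, mul_zero]
      simp only
      intro h
      apply hi
      omega
    · intro h
      exfalso
      apply h
      rw [Finset.mem_range]
      omega
  have key : aeval (fun i => algebraMap k A (p j i)) (f j) = 0 := by
    have h1 : aeval (fun i => algebraMap k A (p j i)) (f j) = algebraMap k A (eval (p j) (f j)) := by
      rw [← MvPolynomial.coe_aeval_eq_eval]
      exact (comp_aeval_apply _ (Algebra.ofId k A) (f j)).symm
    rw [h1, hfp j, map_zero]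
  rw [h2, hom_mul (hf j), key, mul_zero]

end forms

section split

variable {r : ℕ} (κ : Fin (r + 1) → Type)

/-- separation of the first block -/
def eF : (Σ j, κ j) ≃ κ 0 ⊕ (Σ j : Fin r, κ j.succ) where
  toFun
    | ⟨j, a⟩ => (Fin.cases (motive := fun j => κ j → κ 0 ⊕ (Σ j : Fin r, κ j.succ))
        (fun a => Sum.inl a) (fun i a => Sum.inr ⟨i, a⟩) j) a
  invFun
    | Sum.inl a => ⟨0, a⟩
    | Sum.inr ⟨i, a⟩ => ⟨i.succ, a⟩
  left_inv := by
    rintro ⟨j, a⟩
    induction j using Fin.cases with
    | zero => rfl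
    | succ j => rfl
  right_inv := by
    rintro (a | ⟨i, a⟩)
    · rfl
    · rfl

/-- all blocks except the last one -/
def tF (x : Σ j : Fin r, κ j.castSucc) : Σ j, κ j := ⟨x.1.castSucc, x.2⟩

theorem tF_inj : Function.Injective (tF κ) := by
  rintro ⟨j, a⟩ ⟨j', a'⟩ h
  simp only [tF, Sigma.mk.injEq, Fin.castSucc_inj] at h
  obtain ⟨rfl, h⟩ := h
  rw [eq_of_heq h]

theorem not_range_tF {x : Σ j, κ j} (h : x ∉ Set.range (tF κ)) : x.1 = Fin.last r := by
  obtain ⟨j, a⟩ := x
  induction j using Fin.lastCases with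
  | last => rfl
  | cast j => exact absurd ⟨⟨j, a⟩, rfl⟩ h

/-- one more variable in the first block -/
def uF (τ : Fin (r + 1) → Type) : (Σ j, τ j ⊕ PLift (j = 0)) ≃ (Σ j, τ j) ⊕ Unit where
  toFun
    | ⟨j, Sum.inl a⟩ => Sum.inl ⟨j, a⟩
    | ⟨_, Sum.inr _⟩ => Sum.inr ()
  invFun
    | Sum.inl ⟨j, a⟩ => ⟨j, Sum.inl a⟩
    | Sum.inr _ => ⟨0, Sum.inr ⟨rfl⟩⟩
  left_inv := by
    rintro ⟨j, a | h⟩
    · rfl
    · cases h with
      | up h =>
        subst h
        rfl
  right_inv := by
    rintro (⟨j, a⟩ | u)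
    · rfl
    · rfl

end split

section unit

variable {k : Type} [Field k] {r : ℕ} {τ : Fin (r + 1) → Type}

/-- one more variable in the first block -/
noncomputable def addU (f : ∀ j, MvPolynomial (τ j) k) (c : k) (d : ℕ) (j : Fin (r + 1)) :
    MvPolynomial (τ j ⊕ PLift (j = 0)) k :=
  rename Sum.inl (f j) + ∑ u : PLift (j = 0), C c * X (Sum.inr u) ^ d

theorem addU_hom {f : ∀ j, MvPolynomial (τ j) k} {d : ℕ} (hf : ∀ j, (f j).IsHomogeneous d) (c : k)
    (j : Fin (r + 1)) : (addU f c d j).IsHomogeneous d := by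
  unfold addU
  refine IsHomogeneous.add (hf j).rename_isHomogeneous ?_
  refine IsHomogeneous.sum _ _ _ fun u _ => ?_
  have h1 := (isHomogeneous_C (τ j ⊕ PLift (j = 0)) c).mul
    ((isHomogeneous_X k (Sum.inr u : τ j ⊕ PLift (j = 0))).pow d)
  rwa [one_mul, zero_add] at h1

theorem eval_addU {f : ∀ j, MvPolynomial (τ j) k} {d : ℕ} (hd : 0 < d) (c : k) (j : Fin (r + 1))
    (p : τ j → k) : eval (Sum.elim p 0) (addU f c d j) = eval p (f j) := by
  unfold addU
  rw [map_add, map_sum, eval_rename]
  have h2 : (Sum.elim p (0 : PLift (j = 0) → k)) ∘ Sum.inl = p := by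
    funext a
    rfl
  rw [h2]
  refine add_eq_left.2 (Finset.sum_eq_zero fun u _ => ?_)
  rw [map_mul, map_pow, eval_X, Sum.elim_inr, Pi.zero_apply, zero_pow hd.ne', mul_zero]

theorem rename_addU (f : ∀ j, MvPolynomial (τ j) k) (d : ℕ) (c : k) :
    rename (uF τ) (sumF (addU f c d)) = Gc d (sumF f) c := by
  classical
  unfold sumF Gc addU
  simp only [map_add, map_sum, map_mul, map_pow, rename_rename, rename_C, rename_X,
    Finset.sum_add_distrib]
  congr 1
  rw [Finset.sum_eq_single 0]
  · have h4 : Finset.univ (α := PLift ((0 : Fin (r + 1)) = 0)) = {⟨rfl⟩} := by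
      ext ⟨x⟩
      simp
    rw [h4, Finset.sum_singleton]
    rfl
  · intro j _ hj
    have h4 : IsEmpty (PLift (j = 0)) := ⟨fun h => hj h.down⟩
    rw [Finset.univ_eq_empty, Finset.sum_empty]
  · intro h
    exact absurd (Finset.mem_univ _) h

end unit

/-- the main theorem, sharp version -/
def T_IND2 : Prop :=
  ∀ (k : Type) [Field k] [IsAlgClosed k] [CharZero k] (d : ℕ), 2 ≤ d → ∀ (s : ℕ)
    (κ : Fin (s + 1) → Type) [∀ j, Fintype (κ j)] (f : ∀ j, MvPolynomial (κ j) k),
    (∀ j, (f j).IsHomogeneous d) → (∀ j, d ≤ Fintype.card (κ j)) → d + 1 ≤ Fintype.card (κ 0) →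
    ∀ (p : ∀ j, κ j → k), (∀ j, p j ≠ 0) → (∀ j, eval (p j) (f j) = 0) →
    RR k (sumF f) s (flagF p)

theorem t_IND2 : T_IND2 := by
  have hPEN : T_PEN := t_J_PENi a_R t_CYC2
  have hSB := a_SB
  have hSL := a_SL
  have hSA := a_SA
  intro k _ _ _ d hd s
  induction s with
  | zero =>
    intro κ _ f hf _ hκ p hp hfp
    refine hPEN k _ d (by omega) ?_ _ (sumF_hom hf) _ ?_ ?_
    · have h1 : Fintype.card (κ 0) ≤ Fintype.card (Σ j, κ j) :=
        Fintype.card_le_of_injective (fun a => (⟨0, a⟩ : Σ j, κ j)) (fun a b h => by simpa using h)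
      omega
    · exact (flagF_li hp).ne_zero (0 : Fin 1)
    · have h1 := flagF_vanish hf hfp k (fun _ => 1)
      rw [← MvPolynomial.coe_aeval_eq_eval]
      simpa using h1
  | succ s ih =>
    intro κ _ f hf hκ hκ0 p hp hfp
    have hd0 : 0 < d := by omega
    have hF := sumF_hom hf
    have hG : (sumF (fun j : Fin (s + 1) => f j.succ)).IsHomogeneous d := sumF_hom fun j => hf j.succ
    have hjv : ∀ {A : Type} (z : κ 0 → A) (y : (Σ j : Fin (s + 1), κ j.succ) → A),
        (∀ a, jv (eF κ) z y ⟨0, a⟩ = z a) ∧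
        (∀ (j : Fin (s + 1)) (a : κ j.succ), jv (eF κ) z y ⟨j.succ, a⟩ = y ⟨j, a⟩) := by
      intro A z y
      exact ⟨fun _ => rfl, fun _ _ => rfl⟩
    have hJoin : IsJoin (eF κ) (sumF f) (f 0) (sumF (fun j : Fin (s + 1) => f j.succ)) := by
      intro A _ _ z y
      rw [aeval_sumF, aeval_sumF, Fin.sum_univ_succ]
      congr 1
    have hflY : ∀ i ≤ s, flagF p i = jv (eF κ) 0 (flagF (fun j : Fin (s + 1) => p j.succ) i) := by
      intro i hi
      funext x
      obtain ⟨j, a⟩ := x
      induction j using Fin.cases with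
      | zero =>
        rw [(hjv _ _).1, flagF, if_neg, Pi.zero_apply]
        simp only [Fin.val_zero]
        omega
      | succ j =>
        rw [(hjv _ _).2, flagF, flagF]
        congr 1
        simp only [Fin.val_succ]
        apply propext
        omega
    have hli : LinearIndependent k fun j : Fin (s + 2) => flagF p j := flagF_li hp
    have hfl0 : flagF p 0 ≠ 0 := hli.ne_zero (0 : Fin (s + 2))
    have hY : ∀ c : k, (c = 0 ∨ c = 1) → RR k (Gc d (sumF (fun j : Fin (s + 1) => f j.succ)) c) s
        (fun i => Sum.elim (flagF (fun j : Fin (s + 1) => p j.succ) i) 0) := by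
      intro c _
      classical
      have h1 := ih (fun j => κ j.succ ⊕ PLift (j = 0)) (addU (fun j : Fin (s + 1) => f j.succ) c d)
        (addU_hom (fun j => hf j.succ) c)
        (fun j => by
          rw [Fintype.card_sum]
          have := hκ j.succ
          omega)
        (by
          rw [Fintype.card_sum]
          have h1 := hκ (Fin.succ 0)
          have h2 : 0 < Fintype.card (PLift ((0 : Fin (s + 1)) = 0)) := Fintype.card_pos_iff.2 ⟨⟨rfl⟩⟩
          omega)
        (fun j => Sum.elim (p j.succ) 0)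
        (fun j => by
          intro h0
          apply hp j.succ
          funext a
          exact congrFun h0 (Sum.inl a))
        (fun j => (eval_addU (f := fun j : Fin (s + 1) => f j.succ) hd0 c j (p j.succ)).trans (hfp _))
      have h2 := RR_reindex (uF (fun j : Fin (s + 1) => κ j.succ)) h1
      rw [rename_addU] at h2
      have h4 : (fun (i : ℕ) (j : (Σ j : Fin (s + 1), κ j.succ) ⊕ Unit) =>
          flagF (fun j : Fin (s + 1) => (Sum.elim (p j.succ) 0 : κ j.succ ⊕ PLift (j = 0) → k)) i
            ((uF (fun j : Fin (s + 1) => κ j.succ)).symm j)) =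
          fun i => Sum.elim (flagF (fun j : Fin (s + 1) => p j.succ) i) 0 := by
        funext i x
        rcases x with ⟨j, a⟩ | u
        · rfl
        · change (if _ then (0 : k) else 0) = 0
          rw [ite_self]
      rw [h4] at h2
      exact h2
    have hm : RR k (sumF (fun j : Fin (s + 1) => f j.castSucc)) s
        (flagF (fun j : Fin (s + 1) => p j.castSucc)) :=
      ih (fun j => κ j.castSucc) (fun j => f j.castSucc) (fun j => hf _) (fun j => hκ _) hκ0 _
        (fun j => hp _) (fun j => hfp _)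
    have hSA' := hSA k _ _ _ _ d hd0 (eF κ) (sumF f) (f 0) (sumF (fun j : Fin (s + 1) => f j.succ))
      hF (hf 0) hG hJoin s (flagF p) (flagF (fun j : Fin (s + 1) => p j.succ))
      (flagF (fun j : Fin (s + 1) => p j.castSucc)) (tF κ)
      (sumF (fun j : Fin (s + 1) => f j.castSucc)) (tF_inj κ) hli hflY
      (by
        intro i hi
        refine ⟨fun x => ?_, fun x hx => ?_⟩
        · obtain ⟨j, a⟩ := x
          simp only [tF, flagF, Fin.val_castSucc]
          congr 1
          apply propext
          omega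
        · have h1 := not_range_tF κ hx
          rw [flagF, if_neg]
          rw [h1, Fin.val_last]
          omega)
      (by
        rintro ⟨j, a⟩
        rw [flagF, if_neg]
        change ¬ ((j.castSucc : ℕ) + 0 + 1 = s + 1 + 1)
        rw [Fin.val_castSucc]
        omega)
      (by
        intro x hx
        have h1 := not_range_tF κ hx
        obtain ⟨j, a⟩ := x
        induction j using Fin.cases with
        | zero =>
          exfalso
          have := congrArg Fin.val h1
          simp at this
        | succ j => exact ⟨⟨j, a⟩, rfl⟩)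
      (by
        intro A _ _ P α hP
        rw [aeval_sumF, aeval_sumF, Fin.sum_univ_castSucc]
        have h1 : aeval (fun b => α * algebraMap k A (flagF p 0 ⟨Fin.last (s + 1), b⟩) +
            P ⟨Fin.last (s + 1), b⟩) (f (Fin.last (s + 1))) = 0 := by
          have h2 : (fun b => α * algebraMap k A (flagF p 0 ⟨Fin.last (s + 1), b⟩) +
              P ⟨Fin.last (s + 1), b⟩) = fun b => α * algebraMap k A (p (Fin.last (s + 1)) b) := by
            funext b
            have h3 : (⟨Fin.last (s + 1), b⟩ : Σ j, κ j) ∉ Set.range (tF κ) := by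
              rintro ⟨⟨j, a⟩, hx⟩
              have h4 := congrArg (fun x : Σ j, κ j => (x.1 : ℕ)) hx
              simp only [tF, Fin.val_castSucc, Fin.val_last] at h4
              omega
            rw [hP _ h3, add_zero, flagF, if_pos]
            simp
          have h4 : aeval (fun b => algebraMap k A (p (Fin.last (s + 1)) b)) (f (Fin.last (s + 1))) =
              algebraMap k A (eval (p (Fin.last (s + 1))) (f (Fin.last (s + 1)))) := by
            rw [← MvPolynomial.coe_aeval_eq_eval]
            exact (comp_aeval_apply _ (Algebra.ofId k A) (f (Fin.last (s + 1)))).symm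
          rw [h2, hom_mul (hf _), h4, hfp, map_zero, mul_zero]
        rw [h1, add_zero]
        refine Finset.sum_congr rfl fun j _ => ?_
        congr 2
        funext a
        have h5 : flagF p 0 (⟨j.castSucc, a⟩ : Σ j, κ j) = 0 := by
          rw [flagF, if_neg]
          simp only [Fin.val_castSucc]
          omega
        rw [h5, map_zero, mul_zero, zero_add]
        rfl)
      (fun A _ _ a => flagF_vanish hf hfp A a)
      hY hm
    intro K _ _ l hl E _ _ P htr hP hFP
    refine hSB k _ _ _ d hd0 hκ0 (eF κ) (sumF f) (f 0) (sumF (fun j : Fin (s + 1) => f j.succ)) hF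
      (hf 0) hG hJoin (flagF (fun j : Fin (s + 1) => p j.succ) 0) ?_ ?_ K l _ ?_ ?_ E P htr hP hFP
    · exact (flagF_li (fun j : Fin (s + 1) => hp j.succ)).ne_zero (0 : Fin (s + 1))
    · have h1 := flagF_vanish (fun j : Fin (s + 1) => hf j.succ) (fun j : Fin (s + 1) => hfp j.succ) k
        (fun n => if n = 0 then 1 else 0)
      rw [← MvPolynomial.coe_aeval_eq_eval]
      have h2 : (fun i : (Σ j : Fin (s + 1), κ j.succ) => ∑ j ∈ Finset.range (s + 1),
          (if j = 0 then (1 : k) else 0) *
            algebraMap k k (flagF (fun j : Fin (s + 1) => p j.succ) j i)) =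
          flagF (fun j : Fin (s + 1) => p j.succ) 0 := by
        funext i
        rw [Finset.sum_eq_single 0]
        · simp
        · intro j _ hj
          rw [if_neg hj, zero_mul]
        · intro h
          exact absurd (Finset.mem_range.2 (Nat.succ_pos s)) h
      rw [h2] at h1
      exact h1
    · rintro rfl
      rw [← hflY 0 (Nat.zero_le s), cyc_pt hfl0 K]
      exact Sat.self
    · intro κ' _ _ htr' z B hzB hV
      obtain ⟨N, δ, hN, hδ, hTY⟩ := hSL k _ _ _ d hd0 hκ0 (eF κ) (sumF f) (f 0)
        (sumF (fun j : Fin (s + 1) => f j.succ)) hF (hf 0) hG hJoin K l κ' htr' z B hzB hV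
      exact Sat.of_nsmul hN (hSA' K l δ hl hδ _ hTY)

end Pool.Agent.Z15.J
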