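import Pool.Agent.Z15.J.Defs
import Pool.Agent.Helper386.D5V.Helper399_FF4a

/-!
Statements of lemmas (tasks of helper15, general dimension).
-/

set_option autoImplicit false

open FF MvPolynomial Pool.Agent.Z15.H

namespace Pool.Agent.Z15.J.Stm

/-- facts on the cycle of a point (most of them are in `Pool/Agent/T2h64/H15/CYC.lean`) -/
def T_CYC2 : Prop :=
  ∀ (K : Type) [Field K] [CharZero K] (ι E : Type) [Fintype ι] [Field E] [Algebra K E],
    -- (1) scaling
    (∀ (P : ι → E) (c : E), c ≠ 0 → cyc K (fun i => c * P i) = cyc K P) ∧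
    -- (2) isomorphisms
    (∀ (E' : Type) [Field E'] [Algebra K E'] (φ : E →ₐ[K] E'), Function.Surjective φ →
      ∀ P : ι → E, cyc K (fun i => φ (P i)) = cyc K P) ∧
    -- (3) extensions of fields (both sides are zero if the extension is infinite)
    (∀ (E' : Type) [Field E'] [Algebra K E'] [Algebra E E'] [IsScalarTower K E E'] (P : ι → E),
      cyc K (fun i => algebraMap E E' (P i)) = Module.finrank E E' • cyc K P) ∧
    -- (4) finiteness
    (∀ (P : ι → E), cyc K P ≠ 0 → Algebra.EssFiniteType K E ∧ Algebra.IsAlgebraic (ratioField K P) E) ∧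
    -- (5) extensions and lines
    (∀ (E' : Type) [Field E'] [Algebra K E'] [Algebra E E'] [IsScalarTower K E E'] (a b : ι → E),
      cyc K (gen (fun i => algebraMap E E' (a i)) (fun i => algebraMap E E' (b i))) =
        Module.finrank E E' • cyc K (gen a b)) ∧
    -- (6) constant points
    (Algebra.trdeg K E ≠ 0 → ∀ p : ι → K, cyc K (fun i => algebraMap K E (p i)) = 0) ∧
    -- (7) the class of a line depends only on the line
    (∀ (a b a' b' : ι → E), LinearIndependent E ![a, b] → LinearIndependent E ![a', b'] →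
      a' ∈ Submodule.span E {a, b} → b' ∈ Submodule.span E {a, b} →
      cyc K (gen a' b') = cyc K (gen a b)) ∧
    -- (8) generic points of a line
    (∀ (M : Type) [Field M] [Algebra K M] [Algebra E M] [IsScalarTower K E M] (θ : M),
      Transcendental E θ → IntermediateField.adjoin E {θ} = ⊤ → ∀ a b : ι → E,
      cyc K (fun i => algebraMap E M (a i) + θ * algebraMap E M (b i)) = cyc K (gen a b))

/-- generic points of linear subspaces; `K` is infinite -/
def T_LIN : Prop :=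
  ∀ (K : Type) [Field K] [CharZero K] (ι E : Type) [Fintype ι] [Field E] [Algebra K E] (l : ℕ)
    (θ : Fin l → E) (fl : ℕ → ι → K), AlgebraicIndependent K θ →
    IntermediateField.adjoin K (Set.range θ) = ⊤ →
    LinearIndependent K (fun j : Fin (l + 1) => fl j) →
    cyc K (fun i => algebraMap K E (fl 0 i) + ∑ j : Fin l, θ j * algebraMap K E (fl (j + 1) i)) =
      lin K fl l

/-- residue fields -/
def T_ABH : Prop :=
  ∀ (K : Type) [Field K] [CharZero K] (E : Type) [Field E] [Algebra K E] (n : ℕ),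
    Algebra.trdeg K E = n → ∀ t : Place K E, ∃ m : ℕ, m + 1 ≤ n ∧ Algebra.trdeg K t.RF = m

/-- finiteness of the divisor of a function -/
def T_FIN : Prop :=
  ∀ (K : Type) [Field K] [CharZero K] (ι M : Type) [Fintype ι] [Field M] [Algebra K M] (l : ℕ),
    IsFG (l + 1) K M → ∀ (Q : ι → M) (h : M) (R : ∀ v : Place K M, ι → v.RF),
    (∀ v, IsRed v Q (R v)) → h ≠ 0 →
    {v : Place K M | Algebra.trdeg K v.RF = l ∧ v.ord h ≠ 0 ∧ cyc K (R v) ≠ 0}.Finite

/-- limits of lines -/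
def T_LIM2 : Prop :=
  ∀ (K : Type) [Field K] [CharZero K] (ι E : Type) [Fintype ι] [Field E] [Algebra K E] (A B : ι → E),
    LinearIndependent E ![A, B] → ∀ t : Place K E,
    -- (1) existence, with a triangular matrix
    (∃ (a b : ι → t.RF) (p r s : E), p ≠ 0 ∧ s ≠ 0 ∧ LinearIndependent t.RF ![a, b] ∧
      (∀ i, t.Reg (p * A i) ∧ t.red (p * A i) = a i) ∧
      (∀ i, t.Reg (r * A i + s * B i) ∧ t.red (r * A i + s * B i) = b i) ∧ IsLim t A B a b) ∧
    -- (2) regular vectors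
    (∀ (a b : ι → t.RF), IsLim t A B a b → ∀ (c c' : E) (w : ι → t.RF),
      (∀ i, t.Reg (c * A i + c' * B i) ∧ t.red (c * A i + c' * B i) = w i) →
      w ∈ Submodule.span t.RF {a, b}) ∧
    -- (3) uniqueness
    (∀ (a b a' b' : ι → t.RF), IsLim t A B a b → IsLim t A B a' b' →
      a' ∈ Submodule.span t.RF {a, b} ∧ b' ∈ Submodule.span t.RF {a, b}) ∧
    -- (4) equations
    (∀ (a b : ι → t.RF), IsLim t A B a b → ∀ (F : MvPolynomial ι K), Vanish F A B → Vanish F a b) ∧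
    -- (5) extensions of fields
    (∀ (M : Type) [Field M] [Algebra K M] [Algebra E M] [IsScalarTower K E M] (v : Place K M) (e : ℕ)
      (hv : Over v t e) (a b : ι → t.RF), IsLim t A B a b →
      IsLim v (fun i => algebraMap E M (A i)) (fun i => algebraMap E M (B i))
        (fun i => hv.resMap (a i)) (fun i => hv.resMap (b i)))

/-! ### Divisors on projective line bundles (helper15 does G and R) -/

def T_G : Prop :=
  ∀ (K : Type) [Field K] [CharZero K] (ι E : Type) [Fintype ι] [Field E] [Algebra K E] (n : ℕ),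
    IsFG n K E → ∀ (F : MvPolynomial ι K) (A B : ι → E), LinearIndependent E ![A, B] →
    Vanish F A B → ∀ (h : E) (T : Finset (Place K E)) (a b : ∀ t : Place K E, ι → t.RF), h ≠ 0 →
    (∀ t, IsLim t A B (a t) (b t)) → (∀ t ∈ T, Algebra.trdeg K t.RF + 1 = n) →
    (∀ t, Algebra.trdeg K t.RF + 1 = n → t.ord h ≠ 0 → cyc K (gen (a t) (b t)) ≠ 0 → t ∈ T) →
    ∑ t ∈ T, t.ord h • cyc K (gen (a t) (b t)) ∈ Rat K n F

/-- there are only finitely many `t` as in `T_G` -/
def T_GFIN : Prop :=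
  ∀ (K : Type) [Field K] [CharZero K] (ι E : Type) [Fintype ι] [Field E] [Algebra K E] (n : ℕ),
    IsFG n K E → ∀ (A B : ι → E), LinearIndependent E ![A, B] →
    ∀ (h : E) (a b : ∀ t : Place K E, ι → t.RF), h ≠ 0 → (∀ t, IsLim t A B (a t) (b t)) →
    {t : Place K E | Algebra.trdeg K t.RF + 1 = n ∧ t.ord h ≠ 0 ∧
      cyc K (gen (a t) (b t)) ≠ 0}.Finite

def T_R : Prop :=
  ∀ (K : Type) [Field K] [CharZero K] (ι E : Type) [Fintype ι] [Field E] [Algebra K E] (n : ℕ),
    IsFG n K E → ∀ (F : MvPolynomial ι K) (A B : ι → E), LinearIndependent E ![A, B] →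
    Vanish F A B → ∃ (T : Finset (Place K E)) (m : Place K E → ℤ) (a b : ∀ t : Place K E, ι → t.RF),
      (∀ t, IsLim t A B (a t) (b t)) ∧ (∀ t ∈ T, Algebra.trdeg K t.RF + 1 = n) ∧
      cyc K A - cyc K B + ∑ t ∈ T, m t • cyc K (gen (a t) (b t)) ∈ Rat K n F

/-! ### Families of lines parametrized by cycles -/

/-- a vector over `K1` as a vector over `κ` -/
def cst {K1 : Type} [Field K1] (κ : Type) [Field κ] [Algebra K1 κ] {ι : Type} (z : ι → K1) :
    ι → κ := fun i => algebraMap K1 κ (z i)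

/-- the linear map with matrix `φ` -/
def lm {K1 κ : Type} [Field K1] [Field κ] [Algebra K1 κ] {ι ν : Type} [Fintype ν]
    (φ : ν → ι → K1) (e : ν → κ) : ι → κ := fun i => ∑ j, e j * algebraMap K1 κ (φ j i)

/-- `Φ` maps the class of `e` to the class of the family of lines through `z` and `φ(e)` -/
def IsFamMap {K0 K1 : Type} [Field K0] [Field K1] [Algebra K0 K1] {ι ν : Type} [Fintype ν]
    (z : ι → K1) (φ : ν → ι → K1)
    (Φ : (Set (MvPolynomial ν K1) →₀ ℤ) →+ (Set (MvPolynomial ι K0) →₀ ℤ)) : Prop :=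
  ∀ (κ : Type) [Field κ] [Algebra K1 κ] [Algebra K0 κ] [IsScalarTower K0 K1 κ] (e : ν → κ), e ≠ 0 →
    Φ (cyc K1 e) = cyc K0 (gen (cst κ z) (lm φ e))

def T_WD : Prop :=
  ∀ (K0 K1 : Type) [Field K0] [Field K1] [Algebra K0 K1] [CharZero K0] (ι ν : Type) [Fintype ι]
    [Fintype ν] (z : ι → K1) (φ : ν → ι → K1), z ≠ 0 →
    ∃ Φ : (Set (MvPolynomial ν K1) →₀ ℤ) →+ (Set (MvPolynomial ι K0) →₀ ℤ), IsFamMap z φ Φ

/-- vertical terms: limits of the lines at places which are not trivial on `K1` -/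
def VT (K0 : Type) {K1 : Type} [Field K0] [Field K1] [Algebra K0 K1] {ι ν : Type} [Fintype ν] (n : ℕ)
    (G : MvPolynomial ν K1) (z : ι → K1) (φ : ν → ι → K1) :
    Set (Set (MvPolynomial ι K0) →₀ ℤ) :=
  {c | ∃ (M : Type) (_ : Field M) (_ : Algebra K1 M) (_ : Algebra K0 M) (_ : IsScalarTower K0 K1 M)
    (t : Place K0 M) (Q : ν → M) (a b : ι → t.RF), Q ≠ 0 ∧ aeval Q G = 0 ∧
    (∃ x : K1, t.ord (algebraMap K1 M x) ≠ 0) ∧ Algebra.trdeg K0 t.RF = n ∧
    IsLim t (cst M z) (lm φ Q) a b ∧ c = cyc K0 (gen a b)}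

/-- the family of lines through `z` and `φ(e)`, `e` in `G = 0`, is contained in `F = 0` and
nondegenerate -/
def Good {K0 K1 : Type} [Field K0] [Field K1] [Algebra K0 K1] {ι ν : Type} [Fintype ν]
    (F : MvPolynomial ι K0) (G : MvPolynomial ν K1) (z : ι → K1) (φ : ν → ι → K1) : Prop :=
  (∀ (κ : Type) [Field κ] [Algebra K1 κ] (e : ν → κ), e ≠ 0 → aeval e G = 0 →
    LinearIndependent κ ![cst κ z, lm φ e]) ∧
  ∀ (κ : Type) [Field κ] [Algebra K1 κ] [Algebra K0 κ] [IsScalarTower K0 K1 κ] (e : ν → κ),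
    aeval e G = 0 → Vanish F (cst κ z) (lm φ e)

def T_TR : Prop :=
  ∀ (K0 K1 : Type) [Field K0] [Field K1] [Algebra K0 K1] [CharZero K0] (ι ν : Type) [Fintype ι]
    [Fintype ν] (δ q : ℕ), IsFG δ K0 K1 → ∀ (F : MvPolynomial ι K0) (G : MvPolynomial ν K1)
    (z : ι → K1) (φ : ν → ι → K1), z ≠ 0 → Good F G z φ →
    ∀ (Φ : (Set (MvPolynomial ν K1) →₀ ℤ) →+ (Set (MvPolynomial ι K0) →₀ ℤ)), IsFamMap z φ Φ →
    ∀ (M : Type) [Field M] [Algebra K1 M] (Q : ν → M) (h : M) (D : Set (MvPolynomial ν K1) →₀ ℤ),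
      IsFG (q + 1) K1 M → Q ≠ 0 → aeval Q G = 0 → h ≠ 0 → IsDivisor K1 q Q h D →
      Φ D ∈ Rat K0 (q + δ + 1) F ⊔ AddSubgroup.closure (VT K0 (q + δ) G z φ)

def T_U : Prop :=
  ∀ (K0 K1 : Type) [Field K0] [Field K1] [Algebra K0 K1] [CharZero K0] (ι ν : Type) [Fintype ι]
    [Fintype ν] (δ q : ℕ), IsFG δ K0 K1 → ∀ (F : MvPolynomial ι K0) (G : MvPolynomial ν K1)
    (z : ι → K1) (φ : ν → ι → K1), z ≠ 0 → Good F G z φ →
    ∀ (Φ : (Set (MvPolynomial ν K1) →₀ ℤ) →+ (Set (MvPolynomial ι K0) →₀ ℤ)), IsFamMap z φ Φ →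
    ∀ D ∈ Rat K1 q G, Φ D ∈ Rat K0 (q + δ + 1) F ⊔ AddSubgroup.closure (VT K0 (q + δ) G z φ)

/-- cones with a constant vertex -/
def T_CONE : Prop :=
  ∀ (K : Type) [Field K] [CharZero K] (ι ν : Type) [Fintype ι] [Fintype ν] (q : ℕ)
    (F : MvPolynomial ι K) (G : MvPolynomial ν K) (z : ι → K) (φ : ν → ι → K), z ≠ 0 →
    Good F G z φ →
    ∀ (Φ : (Set (MvPolynomial ν K) →₀ ℤ) →+ (Set (MvPolynomial ι K) →₀ ℤ)), IsFamMap z φ Φ →
    ∀ D ∈ Rat K q G, Φ D ∈ Rat K (q + 1) F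

/-! ### Zero-cycles on a hypersurface of degree `d` in `d + 1` variables -/

/-- Roitman's theorem for zero-cycles (all base fields `K`) -/
def T_PEN : Prop :=
  ∀ (k : Type) [Field k] [IsAlgClosed k] [CharZero k] (κ : Type) [Fintype κ] (d : ℕ), 0 < d →
    d + 1 ≤ Fintype.card κ → ∀ (g : MvPolynomial κ k), g.IsHomogeneous d → ∀ (fl : ℕ → κ → k),
    fl 0 ≠ 0 → eval (fl 0) g = 0 → RR k g 0 fl

/-! ### The hypersurface `f(x) + G(y) = 0` -/

/-- the vector `(z, y)` -/
def jv {ι κ ν A : Type} (e : ι ≃ κ ⊕ ν) (z : κ → A) (y : ν → A) : ι → A :=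
  fun i => Sum.elim z y (e i)

/-- the form `F` is `f(z) + G(y)` -/
def IsJoin {k : Type} [Field k] {ι κ ν : Type} (e : ι ≃ κ ⊕ ν) (F : MvPolynomial ι k)
    (f : MvPolynomial κ k) (G : MvPolynomial ν k) : Prop :=
  ∀ (A : Type) [CommRing A] [Algebra k A] (z : κ → A) (y : ν → A),
    aeval (jv e z y) F = aeval z f + aeval y G

/-- SB: it suffices to consider families of lines through points `(z, 0)` -/
def T_SB : Prop :=
  ∀ (k : Type) [Field k] [IsAlgClosed k] [CharZero k] (ι κ ν : Type) [Fintype ι] [Fintype κ]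
    [Fintype ν] (d : ℕ), 0 < d → d + 1 ≤ Fintype.card κ → ∀ (e : ι ≃ κ ⊕ ν)
    (F : MvPolynomial ι k) (f : MvPolynomial κ k) (G : MvPolynomial ν k), F.IsHomogeneous d →
    f.IsHomogeneous d → G.IsHomogeneous d → IsJoin e F f G → ∀ (p : ν → k), p ≠ 0 → eval p G = 0 →
    ∀ (K : Type) [Field K] [Algebra k K] (l : ℕ) (c0 : Set (MvPolynomial ι K) →₀ ℤ),
      (l = 0 → cyc K (fun i => algebraMap k K (jv e 0 p i)) ∈ Sat K l (map (algebraMap k K) F) c0) →
      (∀ (κ' : Type) [Field κ'] [Algebra K κ'], Algebra.trdeg K κ' + 1 = l →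
        ∀ (z : κ → κ') (B : ι → κ'), LinearIndependent κ' ![jv e z 0, B] →
        Vanish (map (algebraMap k K) F) (jv e z 0) B →
        cyc K (gen (jv e z 0) B) ∈ Sat K l (map (algebraMap k K) F) c0) →
      ∀ (E : Type) [Field E] [Algebra K E] (P : ι → E), Algebra.trdeg K E = l → P ≠ 0 →
        aeval P (map (algebraMap k K) F) = 0 → cyc K P ∈ Sat K l (map (algebraMap k K) F) c0

/-- special families of lines: the lines through `(z, 0)` and `(v x, y)`, where
`f(α z + β x) = c β^d`, `G(y) + c v^d = 0`, `c = 0` or `c = 1`, and `z`, `x` have coordinates in a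
subfield `K1` of transcendence degree `δ` -/
def TY {k : Type} [Field k] {ι κ ν : Type} (d : ℕ) (e : ι ≃ κ ⊕ ν) (f : MvPolynomial κ k)
    (G : MvPolynomial ν k) (K : Type) [Field K] [Algebra k K] (l δ : ℕ) :
    Set (Set (MvPolynomial ι K) →₀ ℤ) :=
  {C | ∃ (κ' : Type) (_ : Field κ') (_ : Algebra K κ') (_ : Algebra k κ') (_ : IsScalarTower k K κ')
    (K1 : IntermediateField K κ') (z x : κ → κ') (c : k) (v : κ') (y : ν → κ'),
    Algebra.trdeg K κ' + 1 = l ∧ IsFG δ K K1 ∧ (∀ i, z i ∈ K1) ∧ (∀ i, x i ∈ K1) ∧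
    LinearIndependent κ' ![z, x] ∧ (c = 0 ∨ c = 1) ∧
    (∀ (A : Type) [CommRing A] [Algebra k A] [Algebra κ' A] [IsScalarTower k κ' A] (α β : A),
      aeval (fun i => α * algebraMap κ' A (z i) + β * algebraMap κ' A (x i)) f =
        algebraMap k A c * β ^ d) ∧
    (y ≠ 0 ∨ v ≠ 0) ∧ aeval y G + algebraMap k κ' c * v ^ d = 0 ∧
    C = cyc K (gen (jv e z 0) (jv e (fun i => v * x i) y))}

/-- SL: up to a finite extension, all families of lines through points `(z, 0)` are special -/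
def T_SL : Prop :=
  ∀ (k : Type) [Field k] [IsAlgClosed k] [CharZero k] (ι κ ν : Type) [Fintype ι] [Fintype κ]
    [Fintype ν] (d : ℕ), 0 < d → d + 1 ≤ Fintype.card κ → ∀ (e : ι ≃ κ ⊕ ν)
    (F : MvPolynomial ι k) (f : MvPolynomial κ k) (G : MvPolynomial ν k), F.IsHomogeneous d →
    f.IsHomogeneous d → G.IsHomogeneous d → IsJoin e F f G →
    ∀ (K : Type) [Field K] [Algebra k K] (l : ℕ) (κ' : Type) [Field κ'] [Algebra K κ'],
      Algebra.trdeg K κ' + 1 = l → ∀ (z : κ → κ') (B : ι → κ'),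
      LinearIndependent κ' ![jv e z 0, B] → Vanish (map (algebraMap k K) F) (jv e z 0) B →
      ∃ (N δ : ℕ), 0 < N ∧ δ + 1 ≤ l ∧ N • cyc K (gen (jv e z 0) B) ∈ TY d e f G K l δ

/-- the form `G(y) + c v^d` -/
noncomputable def Gc {k : Type} [Field k] {ν : Type} (d : ℕ) (G : MvPolynomial ν k) (c : k) :
    MvPolynomial (ν ⊕ Unit) k :=
  rename Sum.inl G + C c * X (Sum.inr ()) ^ d

/-- the linear map `(y, v) ↦ (v x, y)` -/
def phi {ι κ ν K1 : Type} [Field K1] [DecidableEq ν] (e : ι ≃ κ ⊕ ν) (x : κ → K1) :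
    ν ⊕ Unit → ι → K1
  | Sum.inl b => jv e 0 (Pi.single b 1)
  | Sum.inr _ => jv e x 0

open Classical in
/-- SV: vertical terms are special families of lines with a smaller `δ` -/
def T_SV : Prop :=
  ∀ (k : Type) [Field k] [IsAlgClosed k] [CharZero k] (ι κ ν : Type) [Fintype ι] [Fintype κ]
    [Fintype ν] (d : ℕ), 0 < d → ∀ (e : ι ≃ κ ⊕ ν) (F : MvPolynomial ι k) (f : MvPolynomial κ k)
    (G : MvPolynomial ν k), F.IsHomogeneous d → f.IsHomogeneous d → G.IsHomogeneous d →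
    IsJoin e F f G →
    ∀ (K : Type) [Field K] [Algebra k K] (n δ : ℕ) (K1 : Type) [Field K1] [Algebra K K1]
      [Algebra k K1] [IsScalarTower k K K1], IsFG δ K K1 → ∀ (z x : κ → K1) (c : k),
      LinearIndependent K1 ![z, x] → (c = 0 ∨ c = 1) →
      (∀ (A : Type) [CommRing A] [Algebra k A] [Algebra K1 A] [IsScalarTower k K1 A] (α β : A),
        aeval (fun i => α * algebraMap K1 A (z i) + β * algebraMap K1 A (x i)) f =
          algebraMap k A c * β ^ d) →
      ∀ C ∈ VT K n (map (algebraMap k K1) (Gc d G c)) (jv e z 0) (phi e x),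
        ∃ (N δ' : ℕ), 0 < N ∧ δ' < δ ∧ N • C ∈ TY d e f G K (n + 1) δ'

open Classical in
/-- the family of special lines is good -/
def T_GOOD : Prop :=
  ∀ (k : Type) [Field k] [IsAlgClosed k] [CharZero k] (ι κ ν : Type) [Fintype ι] [Fintype κ]
    [Fintype ν] (d : ℕ), 0 < d → ∀ (e : ι ≃ κ ⊕ ν) (F : MvPolynomial ι k) (f : MvPolynomial κ k)
    (G : MvPolynomial ν k), F.IsHomogeneous d → f.IsHomogeneous d → G.IsHomogeneous d →
    IsJoin e F f G →
    ∀ (K : Type) [Field K] [Algebra k K] (K1 : Type) [Field K1] [Algebra K K1]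
      [Algebra k K1] [IsScalarTower k K K1], ∀ (z x : κ → K1) (c : k),
      LinearIndependent K1 ![z, x] → (c = 0 ∨ c = 1) →
      (∀ (A : Type) [CommRing A] [Algebra k A] [Algebra K1 A] [IsScalarTower k K1 A] (α β : A),
        aeval (fun i => α * algebraMap K1 A (z i) + β * algebraMap K1 A (x i)) f =
          algebraMap k A c * β ^ d) →
      Good (map (algebraMap k K) F) (map (algebraMap k K1) (Gc d G c)) (jv e z 0) (phi e x) ∧
      ∀ (M : Type) [Field M] [Algebra K1 M] (y : ν → M) (v : M),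
        lm (phi e x) (Sum.elim y fun _ => v) =
          jv e (fun i => v * algebraMap K1 M (x i)) y

/-- SA: the induction step. `Fm` is the hypersurface in the linear subspace with coordinates in the
image of `θ`; `F = 0` contains the cone over `Fm = 0` with vertex `fl 0`. -/
def T_SA : Prop :=
  ∀ (k : Type) [Field k] [IsAlgClosed k] [CharZero k] (ι κ ν ιm : Type) [Fintype ι] [Fintype κ]
    [Fintype ν] [Fintype ιm] (d : ℕ), 0 < d → ∀ (e : ι ≃ κ ⊕ ν) (F : MvPolynomial ι k)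
    (f : MvPolynomial κ k) (G : MvPolynomial ν k), F.IsHomogeneous d → f.IsHomogeneous d →
    G.IsHomogeneous d → IsJoin e F f G →
    ∀ (s : ℕ) (fl : ℕ → ι → k) (flY : ℕ → ν → k) (flm : ℕ → ιm → k) (θ : ιm → ι)
      (Fm : MvPolynomial ιm k), Function.Injective θ →
      (LinearIndependent k fun j : Fin (s + 2) => fl j) →
      (∀ i ≤ s, fl i = jv e 0 (flY i)) →
      (∀ i ≤ s, (∀ j, fl (i + 1) (θ j) = flm i j) ∧ ∀ j ∉ Set.range θ, fl (i + 1) j = 0) →
      (∀ j, fl 0 (θ j) = 0) → (∀ j ∉ Set.range θ, ∃ b, e j = Sum.inr b) →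
      (∀ (A : Type) [CommRing A] [Algebra k A] (P : ι → A) (α : A), (∀ j ∉ Set.range θ, P j = 0) →
        aeval (fun i => α * algebraMap k A (fl 0 i) + P i) F = aeval (fun j => P (θ j)) Fm) →
      (∀ (A : Type) [CommRing A] [Algebra k A] (a : ℕ → A),
        aeval (fun i => ∑ j ∈ Finset.range (s + 2), a j * algebraMap k A (fl j i)) F = 0) →
      (∀ c : k, (c = 0 ∨ c = 1) → RR k (Gc d G c) s (fun i => Sum.elim (flY i) 0)) →
      RR k Fm s flm →
      ∀ (K : Type) [Field K] [Algebra k K] (l δ : ℕ), l ≤ s + 1 → δ + 1 ≤ l →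
        ∀ C ∈ TY d e f G K l δ, C ∈ Sat K l (map (algebraMap k K) F)
          (lin K (fun i j => algebraMap k K (fl i j)) l)

end Pool.Agent.Z15.J.Stm
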