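import Pool.Agent.Z15.J.Stm

/-!
Statements of lemmas (tasks of helper15, general dimension), second part.
-/

set_option autoImplicit false

open FF MvPolynomial Pool.Agent.Z15.H

namespace Pool.Agent.Z15.J.Stm

/-- the form `f_0(x_0) + … + f_(s-1)(x_(s-1)) + g(y)` in disjoint sets of variables -/
noncomputable def sumForm {k : Type} [Field k] {s : ℕ} {κ : Fin s → Type} {μ : Type}
    (f : ∀ j, MvPolynomial (κ j) k) (g : MvPolynomial μ k) : MvPolynomial ((Σ j, κ j) ⊕ μ) k :=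
  ∑ j, rename (fun a => Sum.inl ⟨j, a⟩) (f j) + rename Sum.inr g

/-- the points `pμ, p (s-1), …, p 0` -/
def flag {k : Type} [Field k] {s : ℕ} {κ : Fin s → Type} {μ : Type} (p : ∀ j, κ j → k) (pμ : μ → k) :
    ℕ → (Σ j, κ j) ⊕ μ → k
  | 0 => Sum.elim 0 pμ
  | i + 1 => Sum.elim (fun a => if (a.1 : ℕ) + i + 1 = s then p a.1 a.2 else 0) 0

/-- the main theorem -/
def T_IND : Prop :=
  ∀ (k : Type) [Field k] [IsAlgClosed k] [CharZero k] (d : ℕ), 2 ≤ d → ∀ (s : ℕ) (κ : Fin s → Type)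
    [∀ j, Fintype (κ j)] (μ : Type) [Fintype μ] (f : ∀ j, MvPolynomial (κ j) k)
    (g : MvPolynomial μ k), (∀ j, (f j).IsHomogeneous d) → g.IsHomogeneous d →
    (∀ j, d + 1 ≤ Fintype.card (κ j)) → d ≤ Fintype.card μ → (s = 0 → d + 1 ≤ Fintype.card μ) →
    ∀ (p : ∀ j, κ j → k) (pμ : μ → k), (∀ j, p j ≠ 0) → pμ ≠ 0 → (∀ j, eval (p j) (f j) = 0) →
    eval pμ g = 0 → RR k (sumForm f g) s (flag p pμ)

/-! ### implications -/

def T_GFINi : Prop := T_FIN → T_CYC2 → T_LIM2 → T_GFIN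
def T_TRi : Prop := T_G → T_GFIN → T_CYC2 → T_LIM2 → T_TR
def T_Ui : Prop := T_TR → T_U
def T_CONEi : Prop := T_U → T_CONE
def T_PENi : Prop := T_R → T_CYC2 → Pool.Agent.Z15.J.Stm.T_PEN
def T_SBi : Prop := T_R → T_CYC2 → T_LIM2 → T_SB
def T_SLi : Prop := T_CYC2 → T_SL
def T_SVi : Prop := T_ABH → T_CYC2 → T_LIM2 → T_SV
def T_SAi : Prop := T_U → T_CONE → T_WD → T_LIN → T_CYC2 → T_SV → T_GOOD → T_SA
def T_INDi : Prop := T_PEN → T_SB → T_SL → T_SA → T_IND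

end Pool.Agent.Z15.J.Stm
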